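import Pool.Agent.Lib.MP_c86c76_al.G.All
import Pool.Agent.Lib.MP_c86c76_al.Top.Alg

/-!
The change of basis to the sides of the regular polygon, and generation by the rotation and the
twists about the diagonals of odd length.
-/

set_option autoImplicit false

namespace Pool.Agent.MG

open Pool.Agent.MB Pool.Agent.MCG
open FreeGroup hiding map_mul map_inv map_one

/-- The inverse of the product of the first `i` letters `b`. -/
def pE (n : ℕ) : ℕ → FN n
  | 0 => 1
  | i + 1 => (io n (2 * i + 1))⁻¹ * pE n i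

/-- The diagonals of the polygon in the standard basis. -/
def pP (n k : ℕ) : FN n :=
  if k % 2 = 0 then pE n (k / 2) else (io n (k - 1))⁻¹ * ev n (rW (k / 2 + 1))

theorem pP_ev (n i : ℕ) : pP n (2 * i) = pE n i := by
  rw [pP, if_pos (by omega), Nat.mul_div_cancel_left _ two_pos]

theorem pP_od (n i : ℕ) : pP n (2 * i + 1) = (io n (2 * i))⁻¹ * ev n (rW (i + 1)) := by
  rw [pP, if_neg (by omega), show (2 * i + 1) / 2 = i by omega, Nat.add_sub_cancel]

variable {g : ℕ}

theorem xw_X (k : ℕ) : xw g 0 (k + 1) = xw g 0 k * xx g k := by rw [xw_succ, zero_add]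

theorem xw_Q (k : ℕ) : xw g (2 * g) (k + 1) = xw g (2 * g) k * (xx g k)⁻¹ := by
  rw [xw_succ, add_comm, xx_add_two]

theorem rr_eq : rr g = xw g 0 (2 * g) * xw g (2 * g) (2 * g) := by
  rw [rr, show 4 * g = 2 * g + 2 * g by omega, xw_add, zero_add]
  rfl

theorem xw_ext {G : Type} [Group G] {f f' : FG g →* G}
    (h : ∀ k ≤ 2 * g, f (xw g 0 k) = f' (xw g 0 k)) : f = f' := ext_hom _ _ fun i => by
  have := h (i + 1) i.2
  rw [xw_X, map_mul, map_mul, h i i.2.le, xx_of] at this
  exact mul_left_cancel this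

/-- From the sides to the standard basis. -/
def omF (g : ℕ) : FG g →* FN (2 * g) := lift fun k => (pP _ k)⁻¹ * pP _ (k + 1)

/-- From the standard basis to the sides. -/
def omG (g : ℕ) : FN (2 * g) →* FG g := lift fun k =>
  if (k : ℕ) % 2 = 0 then xw g 0 (k + 2) * xw g (2 * g) (k + 2) * (xw g 0 (k + 1))⁻¹
  else xw g 0 (k - 1) * (xw g 0 (k + 1))⁻¹

theorem omF_xx {k : ℕ} (h : k < 2 * g) : omF g (xx g k) = (pP _ k)⁻¹ * pP _ (k + 1) := by
  rw [show xx g k = _ from xx_of g ⟨k, h⟩, omF, lift_apply_of]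

theorem omF_X {k : ℕ} (h : k ≤ 2 * g) : omF g (xw g 0 k) = pP _ k := by
  induction k with
  | zero => exact map_one _
  | succ k ih => rw [xw_X, map_mul, ih (by omega), omF_xx h, mul_inv_cancel_left]

theorem omF_Q {i : ℕ} (h : i ≤ g) :
    omF g (xw g (2 * g) (2 * i)) = (pE _ i)⁻¹ * ev _ (rW i) := by
  induction i with
  | zero => rw [rW, ev, Raw_nil]; exact (map_one _).trans (by simp [pE])
  | succ i ih =>
    rw [show 2 * (i + 1) = 2 * i + 1 + 1 from rfl, xw_Q, xw_Q, map_mul, map_mul, map_inv, map_inv,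
      ih (by omega), omF_xx (by omega), omF_xx (by omega), pP_ev, pP_od,
      show 2 * i + 1 + 1 = 2 * (i + 1) from rfl, pP_ev, pE, Lick_rW]
    group

theorem omG_a {i : ℕ} (h : i < g) : omG g (io _ (2 * i)) =
    xw g 0 (2 * i + 2) * xw g (2 * g) (2 * i + 2) * (xw g 0 (2 * i + 1))⁻¹ := by
  rw [io, dif_pos (by omega), omG, lift_apply_of, if_pos (by simp)]

theorem omG_b {i : ℕ} (h : i < g) : omG g (io _ (2 * i + 1)) =
    xw g 0 (2 * i) * (xw g 0 (2 * i + 2))⁻¹ := by
  rw [io, dif_pos (by omega), omG, lift_apply_of, if_neg (by simp)]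
  rfl

theorem omG_r {i : ℕ} (h : i ≤ g) : omG g (pE _ i) = xw g 0 (2 * i) ∧
    omG g (ev _ (rW i)) = xw g 0 (2 * i) * xw g (2 * g) (2 * i) := by
  induction i with
  | zero => rw [rW, ev, Raw_nil]; exact ⟨map_one _, (map_one _).trans (mul_one _).symm⟩
  | succ i ih =>
    obtain ⟨a, b⟩ := ih (by omega)
    simp only [pE, Lick_rW, map_mul, map_inv, a, b, omG_a h, omG_b h,
      show 2 * (i + 1) = 2 * i + 1 + 1 from rfl, show 2 * i + 2 = 2 * i + 1 + 1 from rfl, xw_Q, xw_X]
    constructor <;> group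

/-- The change of basis. -/
def omega (g : ℕ) : MulAut (FG g) := MonoidHom.toMulEquiv (omF g) (omG g)
  (xw_ext fun k hk => by
    rw [MonoidHom.comp_apply, omF_X hk, MonoidHom.id_apply]
    obtain ⟨i, rfl | rfl⟩ := Nat.even_or_odd' k
    · rw [pP_ev, (omG_r (by omega)).1]
    · rw [pP_od, map_mul, map_inv, omG_a (by omega), (omG_r (by omega)).2,
        show 2 * (i + 1) = 2 * i + 2 from rfl]
      group)
  (ext_hom _ _ fun k => by
    have := k.2
    rw [MonoidHom.comp_apply, MonoidHom.id_apply, ← show io _ k = of k from dif_pos k.2]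
    obtain ⟨i, e | e⟩ := Nat.even_or_odd' (k : ℕ) <;> rw [e]
    · rw [omG_a (by omega), map_mul, map_mul, map_inv, omF_X (by omega), omF_X (by omega),
        show 2 * i + 2 = 2 * (i + 1) from rfl, omF_Q (by omega), pP_ev, pP_od]
      group
    · rw [omG_b (by omega), map_mul, map_inv, omF_X (by omega), omF_X (by omega),
        show 2 * i + 2 = 2 * (i + 1) from rfl, pP_ev, pP_ev, pE]
      group)

theorem omega_X {k : ℕ} (h : k ≤ 2 * g) : omega g (xw g 0 k) = pP _ k := omF_X h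

theorem omega_rr (g : ℕ) : omega g (rr g) = ev (2 * g) (rW g) := by
  change omF g _ = _
  rw [rr_eq, map_mul, omF_X le_rfl, omF_Q le_rfl, pP_ev, mul_inv_cancel_left]

theorem rho_pow (hg : 0 < g) (m : ℕ) (k : ℤ) : (rho g ^ m) (xx g k) = xx g (k + m) := by
  induction m with
  | zero => simp
  | succ m ih => rw [pow_succ', MulAut.mul_apply, ih, rho_xx hg]; push_cast; rw [add_assoc]

theorem rho_pow_xw (hg : 0 < g) (m : ℕ) (a : ℤ) (n : ℕ) :
    (rho g ^ m) (xw g a n) = xw g (a + m) n := by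
  induction n with
  | zero => exact map_one _
  | succ n ih => rw [xw_succ, xw_succ, map_mul, ih, rho_pow hg, add_right_comm]

/-- The twist about the diagonal of odd length `n`. -/
def IsTn (g n : ℕ) (φ : MulAut (FG g)) : Prop := ∀ j < 2 * g, φ (xx g (j : ℕ)) =
  if j < n then xx g j else if j % 2 = 1 then xw g 0 n * xx g j else xx g j * (xw g 0 n)⁻¹

/-- The twist about the diagonal of length two at `k`. -/
def IsU (g : ℕ) (k : ℤ) (φ : MulAut (FG g)) : Prop :=
  φ (xx g k) = (xx g (k + 1))⁻¹ ∧ φ (xx g (k + 1)) = xx g (k + 1) * xx g k * xx g (k + 1) ∧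
    ∀ j, k + 2 ≤ j → j < k + 2 * g → φ (xx g j) = xx g j

theorem pE_fix {n : ℕ} {φ : MulAut (FN n)} {i : ℕ}
    (h : ∀ j < i, φ (io n (2 * j + 1)) = io n (2 * j + 1)) : φ (pE n i) = pE n i := by
  induction i with
  | zero => exact map_one _
  | succ i ih => rw [pE, map_mul, map_inv, h i (by omega), ih fun j hj => h j (by omega)]

theorem pE_up {n : ℕ} {φ : MulAut (FN n)} {m i : ℕ} {w : FN n} (hm : m ≤ i)
    (h0 : φ (pE n m) = pE n m * w)
    (h : ∀ j, m ≤ j → φ (io n (2 * j + 1)) = io n (2 * j + 1)) : φ (pE n i) = pE n i * w := by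
  induction i, hm using Nat.le_induction with
  | base => exact h0
  | succ i hi ih => rw [pE, map_mul, map_inv, h i hi, ih, mul_assoc]

theorem IsU.X {k : ℕ} {φ : MulAut (FG g)} (h : IsU g k φ) (hk : k + 2 ≤ 2 * g) :
    φ (xw g 0 (k + 1)) = xw g 0 k * (xw g 0 (k + 2))⁻¹ * xw g 0 (k + 1) ∧
      ∀ j ≤ 2 * g, j ≠ k + 1 → φ (xw g 0 j) = xw g 0 j := by
  have lo : ∀ j ≤ k, φ (xw g 0 j) = xw g 0 j := fun j hj => by
    induction j with
    | zero => exact map_one _
    | succ j ih =>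
      have := h.2.2 (j + 2 * g) (by omega) (by omega)
      rw [xx_add_two, map_inv, inv_inj] at this
      rw [xw_X, map_mul, ih (by omega), this]
  refine ⟨?_, fun j hj e => ?_⟩
  · rw [xw_X (k + 1), xw_X, map_mul, lo k le_rfl, h.1]
    push_cast
    group
  · rcases le_or_gt j k with i | i
    · exact lo j i
    obtain ⟨j, rfl⟩ : ∃ l, j = k + 2 + l := ⟨j - (k + 2), by omega⟩
    induction j with
    | zero =>
      rw [add_zero, xw_X (k + 1), xw_X, map_mul, map_mul, lo k le_rfl, h.1]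
      push_cast
      rw [h.2.1]
      group
    | succ j ih =>
      rw [← add_assoc, xw_X, map_mul, ih (by omega) (by omega) (by omega),
        h.2.2 _ (by omega) (by omega)]

theorem om_eq {φ : MulAut (FG g)} {T : MulAut (FN (2 * g))}
    (h : ∀ k ≤ 2 * g, omega g (φ (xw g 0 k)) = T (pP _ k)) : (omega g)⁻¹ * T * omega g = φ := by
  rw [mul_assoc, inv_mul_eq_iff_eq_mul]
  refine MulEquiv.toMonoidHom_injective (xw_ext fun k hk => ?_)
  change T (omega g _) = omega g (φ _)
  rw [h k hk, omega_X hk]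

theorem lick_r {T : MulAut (FN (2 * g))} {m : ℕ} (hm : m ≤ g)
    (h : T (ev _ (rW g)) = ev _ (rW g)) (h' : ∀ x, 2 * m ≤ x → T (io _ x) = io _ x) :
    T (ev _ (rW m)) = ev _ (rW m) := by
  induction hm using Nat.decreasingInduction with
  | self => exact h
  | of_succ k hk ih =>
    have := ih fun x hx => h' x (by omega)
    simp only [Lick_rW, map_mul, map_inv, h' _ le_rfl, h' (2 * k + 1) (by omega)] at this
    exact mul_left_cancel this

theorem pP_od' (n i : ℕ) : pP n (2 * i + 1) =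
    io n (2 * i + 1) * (io n (2 * i))⁻¹ * (io n (2 * i + 1))⁻¹ * ev n (rW i) := by
  rw [pP_od, Lick_rW]
  group

theorem isB_eq {i : ℕ} (hi : i < g) {φ : MulAut (FG g)} {T : MulAut (FN (2 * g))}
    (h : IsU g (2 * i : ℕ) φ) (t : IsB _ i T) : (omega g)⁻¹ * T * omega g = φ := by
  obtain ⟨a, b⟩ := h.X (by omega)
  have r := (lickSt _).2.2 g rfl T ⟨i, Or.inl ⟨by omega, Or.inr t⟩⟩
  have e : ∀ j, T (pE _ j) = pE _ j := fun j => pE_fix fun l _ => t.2 _ (by omega)
  refine om_eq fun k hk => ?_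
  obtain ⟨j, rfl | rfl⟩ := Nat.even_or_odd' k
  · rw [b _ hk (by omega), omega_X hk, pP_ev, e]
  have r' : T (ev _ (rW (j + 1))) = ev _ (rW (j + 1)) := by
    rcases le_or_gt i j with l | l
    · exact lick_r (by omega) r fun x hx => t.2 x (by omega)
    · exact Lick_low T fun x hx => t.2 x (by omega)
  by_cases l : j = i
  · subst l
    rw [a, map_mul, map_mul, map_inv, omega_X hk, omega_X (by omega), omega_X (by omega),
      show 2 * j + 2 = 2 * (j + 1) from rfl, pP_ev, pP_ev, pP_od, map_mul, map_inv, r', t.1, pE]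
    group
  · rw [b _ hk (by omega), omega_X hk, pP_od, map_mul, map_inv, r', t.2 _ (by omega)]

theorem isC_eq {i : ℕ} (hi : i + 1 < g) {φ : MulAut (FG g)} {T : MulAut (FN (2 * g))}
    (h : IsU g (2 * i + 1 : ℕ) φ) (t : IsC _ i T) : (omega g)⁻¹ * T * omega g = φ := by
  obtain ⟨a, b⟩ := h.X (by omega)
  have r := (lickSt _).2.2 g rfl T ⟨i, Or.inr ⟨by omega, t⟩⟩
  have lo : ∀ j ≤ i, T (ev _ (rW j)) = ev _ (rW j) := fun j l =>
    Lick_low T fun x hx => t.2.2.2 x (by omega) (by omega) (by omega)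
  have e : ∀ j ≤ i, T (pE _ j) = pE _ j := fun j l =>
    pE_fix fun l _ => t.2.2.2 _ (by omega) (by omega) (by omega)
  refine om_eq fun k hk => ?_
  obtain ⟨j, rfl | rfl⟩ := Nat.even_or_odd' k
  · rcases lt_trichotomy j (i + 1) with l | rfl | l
    · rw [b _ hk (by omega), omega_X hk, pP_ev, e j (by omega)]
    · rw [show 2 * (i + 1) = 2 * i + 1 + 1 from rfl, a, map_mul, map_mul, map_inv,
        omega_X (by omega), omega_X (by omega), omega_X (by omega),
        show 2 * i + 1 + 1 = 2 * (i + 1) from rfl,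
        show 2 * i + 1 + 2 = 2 * (i + 1) + 1 from rfl, pP_ev, pP_od, pP_od', pE, map_mul, map_inv,
        t.2.2.1, e i le_rfl, cc, show 2 * (i + 1) = 2 * i + 2 from rfl,
        show 2 * i + 2 + 1 = 2 * i + 3 from rfl]
      group
    · rw [b _ hk (by omega), omega_X hk, pP_ev, pE_up (w := 1) (show i + 1 + 1 ≤ j from l) ?_
        fun j l => t.2.2.2 _ (by omega) (by omega) (by omega), mul_one]
      rw [pE, pE, map_mul, map_mul, map_inv, map_inv, e i le_rfl, t.2.2.1,
        show 2 * (i + 1) + 1 = 2 * i + 3 from rfl, t.1]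
      group
  rw [b _ hk (by omega), omega_X hk]
  rcases lt_trichotomy j i with l | rfl | l
  · rw [pP_od, map_mul, map_inv, lo _ l, t.2.2.2 _ (by omega) (by omega) (by omega)]
  · rw [pP_od', map_mul, map_mul, map_mul, map_inv, map_inv, lo j le_rfl, t.2.1, t.2.2.1]
    group
  · rw [pP_od, map_mul, map_inv, t.2.2.2 _ (by omega) (by omega) (by omega),
      lick_r (by omega) r fun x hx => t.2.2.2 x (by omega) (by omega) (by omega)]

theorem isA_eq {i : ℕ} (hi : i < g) {φ : MulAut (FG g)} {T : MulAut (FN (2 * g))}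
    (h : IsTn g (2 * i + 1) φ) (t : IsA _ i T) :
    (omega g)⁻¹ * T * omega g = rho g ^ (2 * g) * φ * (rho g ^ (2 * g))⁻¹ := by
  have hg : 0 < g := by omega
  generalize hψ : rho g ^ (2 * g) * φ * (rho g ^ (2 * g))⁻¹ = ψ
  have i1 : ∀ k, (rho g ^ (2 * g)) (xx g k) = (xx g k)⁻¹ := fun k => by
    rw [rho_pow hg, ← xx_add_two]
    rfl
  have i2 : (rho g ^ (2 * g)) (xw g 0 (2 * i + 1)) = xw g (2 * g) (2 * i + 1) := by
    rw [rho_pow_xw hg, zero_add]
    rfl
  have q : ∀ j < 2 * g, ψ (xx g (j : ℕ)) = if j < 2 * i + 1 then xx g j else if j % 2 = 1 then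
      xx g j * (xw g (2 * g) (2 * i + 1))⁻¹ else xw g (2 * g) (2 * i + 1) * xx g j := fun j hj => by
    rw [← inv_inj, ← map_inv, ← i1, ← hψ, MulAut.mul_apply, MulAut.mul_apply,
      MulAut.inv_apply_self, h j hj]
    split_ifs <;> simp only [map_mul, map_inv, i1, i2, mul_inv_rev, inv_inv]
  have x : ∀ k ≤ 2 * g, ψ (xw g 0 k) = if 2 * i + 1 < k ∧ k % 2 = 0 then
      xw g 0 k * (xw g (2 * g) (2 * i + 1))⁻¹ else xw g 0 k := fun k hk => by
    induction k with
    | zero => rw [if_neg (by omega)]; exact map_one _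
    | succ k ih =>
      rw [xw_X, map_mul, ih (by omega), q k hk]
      split_ifs <;> first | omega | group
  have r := (lickSt _).2.2 g rfl T ⟨i, Or.inl ⟨by omega, Or.inl t⟩⟩
  refine om_eq fun k hk => ?_
  rw [x k hk]
  obtain ⟨j, rfl | rfl⟩ := Nat.even_or_odd' k
  · split_ifs with l
    · rw [map_mul, omega_X hk, pP_ev]
      refine (pE_up (show i + 1 ≤ j by omega) ?_ fun j l => t.2 _ (by omega)).symm
      change _ = _ * omF g _
      rw [pE, map_mul, map_inv, t.1, pE_fix fun j l => t.2 _ (by omega), xw_Q, map_inv, map_mul,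
        map_inv, omF_Q hi.le, omF_xx (by omega), pP_ev, pP_od']
      group
    · rw [omega_X hk, pP_ev, pE_fix fun j l => t.2 _ (by omega)]
  · rw [if_neg (by omega), omega_X hk, pP_od, map_mul, map_inv, t.2 _ (by omega)]
    rcases le_or_gt i j with l | l
    · rw [lick_r (by omega) r fun x hx => t.2 x (by omega)]
    · rw [Lick_low T fun x hx => t.2 x (by omega)]

theorem IsU.rot (hg : 0 < g) {φ : MulAut (FG g)} (h : IsU g 0 φ) (k : ℕ) :
    IsU g k (rho g ^ k * φ * (rho g ^ k)⁻¹) := by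
  have e : ∀ j, (rho g ^ k * φ * (rho g ^ k)⁻¹) (xx g (j + k)) = (rho g ^ k) (φ (xx g j)) :=
    fun j => by rw [← rho_pow hg, MulAut.mul_apply, MulAut.mul_apply, MulAut.inv_apply_self]
  refine ⟨?_, ?_, fun j h1 h2 => ?_⟩
  · rw [← zero_add (k : ℤ), e, h.1, map_inv, rho_pow hg, add_right_comm]
  · rw [← zero_add (k : ℤ), add_right_comm, e, h.2.1, map_mul, map_mul, rho_pow hg, rho_pow hg]
  · rw [← sub_add_cancel j k, e, h.2.2 _ (by omega) (by omega), rho_pow hg]

theorem isU_zero (hg : 0 < g) {t : MulAut (FG g)} (h : IsTn g 1 t) :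
    IsU g 0 (MulAut.conj (xx g 0 * xx g 1)⁻¹ * t * (rho g * t * (rho g)⁻¹) * t⁻¹) := by
  have c : xw g 0 1 = xx g 0 := by rw [xw_X, xw_zero, one_mul]; rfl
  have h0 : t (xx g 0) = xx g 0 := h 0 (by omega)
  have ho : ∀ j : ℤ, 1 ≤ j → j < 2 * g → j % 2 = 1 → t (xx g j) = xx g 0 * xx g j := by
    intro j h1 h2 h3
    lift j to ℕ using by omega
    rw [h j (by omega), if_neg (by omega), if_pos (by omega), c]
  have he : ∀ j : ℤ, 1 ≤ j → j < 2 * g → j % 2 = 0 → t (xx g j) = xx g j * (xx g 0)⁻¹ := by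
    intro j h1 h2 h3
    lift j to ℕ using by omega
    rw [h j (by omega), if_neg (by omega), if_neg (by omega), c]
  generalize hs : rho g * t * (rho g)⁻¹ = s
  have e : ∀ j, s (xx g (j + 1)) = rho g (t (xx g j)) := fun j => by
    rw [← rho_xx hg, ← hs, MulAut.mul_apply, MulAut.mul_apply, MulAut.inv_apply_self]
  have s0 : s (xx g 0) = xx g 0 * (xx g 1)⁻¹ := by
    have := e (2 * g - 1)
    rw [ho _ (by omega) (by omega) (by omega), map_mul, rho_xx hg, rho_xx hg, sub_add_cancel,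
      ← zero_add (2 * g : ℤ), xx_add_two, map_inv, inv_eq_iff_eq_inv] at this
    rw [this, zero_add]
    group
  have s1 : s (xx g 1) = xx g 1 := by
    have := e 0
    rwa [h0, rho_xx hg, zero_add] at this
  have h1 := ho 1 le_rfl (by omega) rfl
  have k0 : t⁻¹ (xx g 0) = xx g 0 := t.symm_apply_eq.2 h0.symm
  refine ⟨?_, ?_, fun j j1 j2 => ?_⟩ <;> simp only [MulAut.mul_apply, MulAut.conj_apply, zero_add]
  · simp only [k0, s0, map_mul, map_inv, h0, h1]
    group
  · rw [show t⁻¹ (xx g 1) = (xx g 0)⁻¹ * xx g 1 from t.symm_apply_eq.2 (by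
      rw [map_mul, map_inv, h0, h1]; group)]
    simp only [s0, s1, map_mul, map_inv, h0, h1]
    group
  · have ej := e (j - 1)
    rw [sub_add_cancel] at ej
    rcases Int.emod_two_eq_zero_or_one j with p | p
    · have := he j (by omega) (by omega) p
      rw [ho _ (by omega) (by omega) (by omega), map_mul, rho_xx hg, rho_xx hg, sub_add_cancel,
        zero_add] at ej
      rw [show t⁻¹ (xx g j) = xx g j * xx g 0 from t.symm_apply_eq.2 (by
        rw [map_mul, h0, this]; group)]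
      simp only [s0, ej, map_mul, map_inv, h0, h1, this]
      group
    · have := ho j (by omega) (by omega) p
      rw [he _ (by omega) (by omega) (by omega), map_mul, map_inv, rho_xx hg, rho_xx hg,
        sub_add_cancel, zero_add] at ej
      rw [show t⁻¹ (xx g j) = (xx g 0)⁻¹ * xx g j from t.symm_apply_eq.2 (by
        rw [map_mul, map_inv, h0, this]; group)]
      simp only [s0, ej, map_mul, map_inv, h0, h1, this]
      group

/-- The rotation, the inner automorphisms and the twists about the odd diagonals generate. -/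
theorem autC_le (g : ℕ) (J : Subgroup (MulAut (FG g))) (hρ : rho g ∈ J)
    (hi : ∀ w, MulAut.conj w ∈ J) (ht : ∀ i < g, ∃ φ ∈ J, IsTn g (2 * i + 1) φ) : AutC g ≤ J := by
  have key : ∀ T ∈ Lick (2 * g), (omega g)⁻¹ * T * omega g ∈ J := by
    have cj : ∀ (k : ℕ), ∀ φ ∈ J, rho g ^ k * φ * (rho g ^ k)⁻¹ ∈ J := fun k φ h =>
      mul_mem (mul_mem (pow_mem hρ k) h) (inv_mem (pow_mem hρ k))
    have u : 0 < g → ∀ k : ℕ, ∃ φ ∈ J, IsU g k φ := fun hg k => by
      obtain ⟨t, m, h⟩ := ht 0 hg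
      exact ⟨_, cj k _ (mul_mem (mul_mem (mul_mem (hi _) m)
        (mul_mem (mul_mem hρ m) (inv_mem hρ))) (inv_mem m)), (isU_zero hg h).rot hg k⟩
    rintro T ⟨i, ⟨k, t | t⟩ | ⟨k, t⟩⟩
    · obtain ⟨φ, m, h⟩ := ht i (by omega)
      exact isA_eq (by omega) h t ▸ cj _ φ m
    · obtain ⟨φ, m, h⟩ := u (by omega) (2 * i)
      exact isB_eq (by omega) h t ▸ m
    · obtain ⟨φ, m, h⟩ := u (by omega) (2 * i + 1)
      exact isC_eq (by omega) h t ▸ m
  intro φ hφ
  obtain ⟨w, hw⟩ := isConj_iff.1 hφ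
  have m : omega g * (MulAut.conj w * φ) * (omega g)⁻¹ ∈ Subgroup.closure (Lick (2 * g)) :=
    genAll g _ (by
      rw [← omega_rr, MulAut.mul_apply, MulAut.mul_apply, MulAut.inv_apply_self, MulAut.mul_apply,
        MulAut.conj_apply, hw])
  have := (Subgroup.closure_le (J.comap (MulAut.conj (omega g)⁻¹).toMonoidHom)).2
    (fun T hT => by simpa using key T hT) m
  rw [← J.mul_mem_cancel_left (hi w)]
  simpa [mul_assoc] using this

end Pool.Agent.MG
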