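import Pool.Agent.Lib.MP_c86c76_al.G.Defs

/-!
The complement of a handle carries a base diagram.
-/

set_option autoImplicit false

namespace Pool.Agent.MG

open Pool.Agent.MB Pool.Agent.MN
open FreeGroup hiding map_mul map_inv map_one

/-- A signed letter read in the larger alphabet. -/
def Core_up (n : ℕ) (l : Fin n × Bool) : Fin (n + 2) × Bool := (Fin.castAdd 2 l.1, l.2)

/-- The word of the new handle. -/
def Core_H (n : ℕ) : List (Fin (n + 2) × Bool) :=
  [(⟨n, by omega⟩, true), (⟨n + 1, by omega⟩, true), (⟨n, by omega⟩, false),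
    (⟨n + 1, by omega⟩, false)]

theorem Core_ev (n : ℕ) : ev (n + 2) (hd n) = mk (Core_H n) := by
  rw [Raw_ev]
  simp [fw, hd, Core_H]

theorem Core_inc (n : ℕ) (V : List (Fin n × Bool)) : inc n (mk V) = mk (V.map (Core_up n)) :=
  FreeGroup.map.mk

theorem Core_H_mem {n : ℕ} (l : Fin (n + 2) × Bool) : l ∈ Core_H n ↔ n ≤ (l.1 : ℕ) := by
  obtain ⟨⟨i, hi⟩, s⟩ := l
  cases s <;> simp [Core_H] <;> omega

theorem Core_up_mem {n : ℕ} {V : List (Fin n × Bool)} (hV : Full V) (l : Fin (n + 2) × Bool) :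
    l ∈ V.map (Core_up n) ↔ (l.1 : ℕ) < n := by
  refine ⟨fun h => ?_, fun h => List.mem_map.2 ⟨(⟨l.1, h⟩, l.2), hV.2 _, rfl⟩⟩
  obtain ⟨u, -, rfl⟩ := List.mem_map.1 h
  exact u.1.2

theorem Core_full {n : ℕ} {V : List (Fin n × Bool)} (hV : Full V) :
    Full (V.map (Core_up n) ++ Core_H n) := by
  refine ⟨List.nodup_append.2 ⟨hV.1.map fun u v h => ?_, by simp [Core_H], fun u hu v hv e => ?_⟩,
    fun l => List.mem_append.2 ?_⟩
  · exact Prod.ext (Fin.castAdd_injective _ _ (congrArg Prod.fst h)) (congrArg Prod.snd h :)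
  · have h1 := (Core_up_mem hV u).1 hu
    have h2 := (Core_H_mem v).1 hv
    subst e
    omega
  · rw [Core_up_mem hV, Core_H_mem]
    omega

theorem Core_prod {α G : Type} [Group G] (f : FreeGroup α →* G) (W : List (α × Bool)) :
    (W.map fun l => f (lt l)).prod = f (mk W) := by
  induction W with
  | nil => exact (map_one f).symm
  | cons l W ih => rw [List.map_cons, List.prod_cons, ih, Ess_cons, map_mul]

theorem Core_fix (n : ℕ) (σ : MulAut (FN n)) :
    exA n σ (ev (n + 2) (hd n)) = ev (n + 2) (hd n) := by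
  have h1 := exA_new σ (le_refl n)
  have h2 := exA_new σ (Nat.le_succ n)
  simp only [ev, hd, Raw_cons, Raw_nil, cond_true, cond_false, map_mul, map_inv, map_one, h1, h2]

/-- A diagram of the complement extends to a diagram of the whole surface. -/
theorem Core_dia {n : ℕ} {c : Ctx (Fin (n + 2))} {V W : List (Fin n × Bool)}
    {θ : MulAut (FN (n + 2))} (h : θ (inc n (mk V) * ev (n + 2) (hd n)) = c.r) (hW : Full W)
    {σ : MulAut (FN n)} (hσ : σ (mk W) = mk V) :
    ∃ E, IsD c ((W.map fun l => θ (inc n (σ (lt l)))) ++ E) := by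
  have e : ((W.map fun l => θ (inc n (σ (lt l)))) ++
      (Core_H n).map fun l => (θ * exA n σ) (lt l)) =
      (W.map (Core_up n) ++ Core_H n).map fun l => (θ * exA n σ) (lt l) := by
    rw [List.map_append, List.map_map]
    congr 1
    refine List.map_congr_left fun l _ => ?_
    rw [← exA_inc, lt, Core_inc]
    rfl
  refine ⟨_, θ * exA n σ, _, Core_full hW, e, ?_⟩
  rw [e]
  refine (Core_prod (θ * exA n σ).toMonoidHom _).trans ?_
  rw [← mul_mk, ← Core_inc, ← Core_ev, ← h, ← hσ, ← exA_inc]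
  show θ (exA n σ _) = _
  rw [map_mul (exA n σ), Core_fix]

theorem Core_Fr {n : ℕ} {x : Fin n} {w : FN n} (h : w ∈ Fr {x}) :
    inc n w ∈ Fr {Fin.castAdd 2 x} := by
  induction h using Subgroup.closure_induction with
  | mem y hy =>
    obtain ⟨z, hz, rfl⟩ := hy
    exact Subgroup.subset_closure ⟨Fin.castAdd 2 z, fun e => hz (Fin.castAdd_injective _ _ e),
      (FreeGroup.map.of).symm⟩
  | one => rw [map_one]; exact one_mem _
  | mul y z _ _ hy hz => rw [map_mul]; exact mul_mem hy hz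
  | inv y _ hy => rw [map_inv]; exact inv_mem hy

theorem Core_ess {n : ℕ} {c : Ctx (Fin (n + 2))} {V : List (Fin n × Bool)}
    {θ : MulAut (FN (n + 2))} (h : θ (inc n (mk V) * ev (n + 2) (hd n)) = c.r) : Ess (mk V) := by
  intro σ x hx
  refine c.ess (exA n σ * θ⁻¹) (Fin.castAdd 2 x) ?_
  have e : (exA n σ * θ⁻¹) (mk c.W) = inc n (σ (mk V)) * mk (Core_H n) := by
    rw [← Core_ev, ← exA_inc, ← Core_fix n σ, ← map_mul, MulAut.mul_apply, ← Ctx.r, ← h]
    exact congrArg _ (θ.symm_apply_apply _)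
  rw [e]
  refine mul_mem (Core_Fr hx) (Ess_mem_Fr fun l hl e => ?_)
  have h1 := (Core_H_mem l).1 hl
  rw [Set.mem_singleton_iff.1 e] at h1
  exact absurd x.2 (Nat.not_lt.2 h1)

theorem Core_du {n : ℕ} {V : List (Fin n × Bool)} (hV : Full V) {θ : MulAut (FN (n + 2))}
    {u : FN n} {a : Fin (n + 2) → ℤ}
    (h : Du (θ (inc n (mk V) * ev (n + 2) (hd n))) (θ (inc n u)) a) :
    Du (mk V) u (pb (θ.toMonoidHom.comp (inc n)) a) := by
  intro b0
  obtain ⟨b1, hb, hz⟩ : ∃ b1 : Fin (n + 2) → ℤ, pb (inc n) b1 = b0 ∧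
      ∀ i : Fin (n + 2), n ≤ (i : ℕ) → b1 i = 0 := by
    refine ⟨fun i => if hi : (i : ℕ) < n then b0 ⟨i, hi⟩ else 0, funext fun x => ?_,
      fun i hi => dif_neg (by omega)⟩
    rw [pb, inc, FreeGroup.map.of, ch_of]
    exact dif_pos x.2
  have hN : Null (mk V) := null_full hV
  have hW : Null (inc n (mk V) * ev (n + 2) (hd n)) := by
    rw [Core_inc, Core_ev, mul_mk]
    exact null_full (Core_full hV)
  have hp : pb θ.toMonoidHom (pb θ.symm.toMonoidHom b1) = b1 := funext fun x => by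
    rw [pb, ch_pb]
    exact (congrArg _ (θ.symm_apply_apply _)).trans (ch_of _ _)
  have h1 := h (pb θ.symm.toMonoidHom b1)
  have h2 := om_pb hW θ.toMonoidHom a (pb θ.symm.toMonoidHom b1)
  have h3 := ch_pb θ.toMonoidHom (pb θ.symm.toMonoidHom b1) (inc n u)
  have h4 : om (pb θ.toMonoidHom a) b1 (ev (n + 2) (hd n)) = 0 := by
    have hF : mk (Core_H n) ∈ Fr {i : Fin (n + 2) | (i : ℕ) < n} :=
      Ess_mem_Fr fun l hl => Nat.not_lt.2 ((Core_H_mem l).1 hl)
    rw [Core_ev, (om_Fr hF).2 _ _ b1 0 (fun _ _ => rfl) fun x hx => hz x (Nat.not_lt.1 hx)]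
    exact om_zero_right _ _
  have h5 : pb (inc n) (pb θ.toMonoidHom a) = pb (θ.toMonoidHom.comp (inc n)) a :=
    funext fun x => ch_pb _ _ _
  rw [hp, (hN.map (inc n)).om_mul, h4, add_zero, om_pb hN, hb, h5] at h2
  rw [hp, ← ch_pb, hb] at h3
  exact h2.symm.trans (h1.trans h3.symm)

open Classical in
theorem coreSt : CoreSt := by
  intro n c V θ hV h
  obtain ⟨E, hD⟩ := Core_dia (σ := 1) h hV rfl
  have hc := cycA (Fin (n + 2)) c.ρ
  refine ⟨⟨V, fun l => (Finset.univ.filter fun u : Fin n × Bool =>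
    Lo c.ρ (θ (inc n (lt u))) (θ (inc n (lt l)))).card, hV, Core_ess h, fun u v huv => ?_⟩, rfl,
    fun p q hpq => ?_, fun u a ha => Core_du hV (by rw [h]; exact ha)⟩
  · obtain ⟨l1, l2, e⟩ := huv
    have h1 : Lo c.ρ (θ (inc n (lt v))) (θ (inc n (lt (bar u)))) := by
      rw [Ess_lt_bar, map_inv, map_inv]
      refine (plA _ c _ hD).1 _ _ ⟨l1.map fun l => θ (inc n (lt l)),
        (l2.map fun l => θ (inc n (lt l))) ++ E, ?_⟩
      simp [e]
    refine Finset.card_lt_card ⟨fun w hw => ?_, fun hs => ?_⟩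
    · exact Finset.mem_filter.2 ⟨Finset.mem_univ _,
        hc.2.2.2.2.2.1 _ _ _ (Finset.mem_filter.1 hw).2 h1⟩
    · exact hc.2.2.2.2.1 _
        (Finset.mem_filter.1 (hs (Finset.mem_filter.2 ⟨Finset.mem_univ v, h1⟩))).2
  · obtain ⟨E0, σ, W, hW, e, hr⟩ := hpq
    have hσ : σ (mk W) = mk V := by
      rw [e] at hr
      exact (Core_prod σ.toMonoidHom W).symm.trans hr
    obtain ⟨E1, h1⟩ := Core_dia h hW hσ
    have e2 : (W.map fun l => θ (inc n (σ (lt l)))) =
        (p :: q :: p⁻¹ :: q⁻¹ :: E0).map fun w => θ (inc n w) := by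
      rw [e, List.map_map]
      rfl
    refine ⟨(E0.map fun w => θ (inc n w)) ++ E1, ?_⟩
    simpa [e2] using h1

end Pool.Agent.MG
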