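import Pool.Agent.Lib.MP_c86c76_al.G.Defs

/-!
Three arcs of a diagram miss a handle.
-/

namespace Pool.Agent.MG

open Pool.Agent.MB Pool.Agent.MN
open FreeGroup hiding map_mul map_inv map_one

theorem loc_len {β : Type} (Bs : List (List β)) (h : ∀ B ∈ Bs, B ≠ []) :
    Bs.length ≤ Bs.flatten.length := by
  induction Bs with
  | nil => exact le_rfl
  | cons B Bs ih =>
    have h1 := List.length_pos_iff.2 (h B List.mem_cons_self)
    have h2 := ih fun B' h' => h B' (List.mem_cons_of_mem _ h')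
    simp only [List.length_cons, List.flatten_cons, List.length_append]
    omega

theorem loc_inst {α : Type} (L : ℕ → α × Bool) {p q : ℕ × Bool} (h : p.1 = q.1)
    (e : inst L p = inst L q) : p = q := by
  obtain ⟨i, b⟩ := p
  obtain ⟨j, b'⟩ := q
  obtain rfl : i = j := h
  have := congrArg Prod.snd e
  cases b <;> cases b' <;> simp [inst, bar] at this ⊢

theorem locSt : LocSt := by
  rintro n c D x y z hn ⟨θ, W, hW, rfl, hr⟩ hx hy hz
  have hθ : θ (mk W) = c.r := (std_prod θ.toMonoidHom W).symm.trans hr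
  have hess : Ess (mk W) := fun θ' y hy => c.ess (θ' * θ⁻¹) y (by
    change θ' (θ.symm c.r) ∈ _
    rwa [← hθ, MulEquiv.symm_apply_apply])
  obtain ⟨u, -, rfl⟩ := List.mem_map.1 hx
  obtain ⟨v, -, rfl⟩ := List.mem_map.1 hy
  obtain ⟨w, -, rfl⟩ := List.mem_map.1 hz
  obtain ⟨t, ht, h3⟩ := Finset.exists_superset_card_eq (s := {u.1, v.1, w.1}) (n := 3)
    Finset.card_le_three (by rw [Fintype.card_fin]; omega)
  obtain ⟨a0, a1, a2, n1, n2, n3, rfl⟩ := Finset.card_eq_three.1 h3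
  obtain ⟨L, p0, Bs, h, ψ, hL, hLi, hc, hp, hB, hψ, hψW, hF, -⟩ := nfSt exCSt exZSt _ W hW hess 3
    (fun i => ([a0, a1, a2].getD i a0, true)) fun i hi j hj e => by
      interval_cases i <;> interval_cases j <;> simp_all
  rw [Fintype.card_fin] at hLi hc
  have h6 : Bs.length ≤ 6 := by
    have h1 := hp.length_eq
    have h2 := loc_len Bs hB
    rw [List.length_append, show (sgn 3).length = 6 from rfl] at h1
    omega
  obtain ⟨h, rfl⟩ : ∃ h', h = h' + 1 := ⟨h - 1, by omega⟩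
  have hj : 3 + Bs.length + 2 * h = n := by omega
  have hpat : pat 3 p0 Bs (h + 1) = pat 3 p0 Bs h ++ hd n := by
    rw [pat, pat, patC, hj, ← List.append_assoc]
    rfl
  have hk : ∀ l ∈ p0 ++ Bs.flatten, l.1 < 3 := fun l hl => (Raw_mem_sgn 3 l).1 (hp.mem_iff.1 hl)
  have hbd : ∀ l ∈ pat 3 p0 Bs h, l.1 < n := fun l hl => by
    simp only [pat, List.mem_append] at hl
    rcases hl with (hl | hl) | hl
    · have := hk l (List.mem_append_left _ hl)
      omega
    · have := std_bdB Bs (fun l h => hk l (List.mem_append_right _ h)) l hl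
      omega
    · exact hj ▸ std_bdC _ _ l hl
  have hhd : ∀ l ∈ hd n, n ≤ l.1 ∧ l.1 < n + 2 := by simp [hd]
  have hb2 : ∀ l ∈ pat 3 p0 Bs h ++ hd n, l.1 < n + 2 := fun l hl =>
    (List.mem_append.1 hl).elim (fun h => by have := hbd l h; omega) fun h => (hhd l h).2
  rw [hpat] at hψW hF
  obtain ⟨U, hU⟩ := Raw_lift n _ (Raw_bd.2 hbd)
  obtain ⟨π, hπ, hπV⟩ := std_pi L hLi
  have key : ∀ s : Fin (n + 2) × Bool, s.1 ∈ ({a0, a1, a2} : Finset _) →
      ∃ l, θ (lt s) = (θ * ψ⁻¹ * π) (inc n (lt l)) := by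
    rintro ⟨a, b⟩ hs
    obtain ⟨i, hi, e⟩ : ∃ i < 3, [a0, a1, a2].getD i a0 = a := by
      simp only [Finset.mem_insert, Finset.mem_singleton] at hs
      rcases hs with rfl | rfl | rfl
      exacts [⟨0, by omega, rfl⟩, ⟨1, by omega, rfl⟩, ⟨2, by omega, rfl⟩]
    have e1 := hL i hi
    have e2 := hψ i hi
    simp only [e] at e1 e2
    refine ⟨(⟨i, by omega⟩, b), ?_⟩
    change _ = θ (ψ.symm (π _))
    rw [← Raw_lt n (⟨i, _⟩, b), Raw_inc _ _ (Raw_bd.2 fun l hl => by
      rw [List.mem_singleton.1 hl]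
      exact (by omega : i < n)), hπ _ (by omega : i < n + 2)]
    congr 1
    rw [MulEquiv.eq_symm_apply]
    cases b
    · change ψ (lt (bar (a, true))) = lt (bar (L i))
      rw [e1, std_lt_bar, map_inv, e2]
    · change _ = lt (L i)
      rw [e1, e2]
  refine ⟨U, θ * ψ⁻¹ * π, ⟨(hU ▸ (List.nodup_append.1 (hF.1.of_map _)).1).of_map _, fun l => ?_⟩,
    ?_, key u (ht (by simp)), key v (ht (by simp)), key w (ht (by simp))⟩
  · obtain ⟨q, hq, e⟩ := List.mem_map.1 (hF.2 (inst L (Raw_up n l)))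
    have hl : (Raw_up n l).1 < n := l.1.2
    obtain rfl := loc_inst L (hLi _ (hb2 q hq) _ (by omega) (by
      rw [← std_inst_fst, e, std_inst_fst])) e
    rcases List.mem_append.1 hq with h1 | h1
    · exact (List.mem_map_of_injective (Raw_up_inj n)).1 (hU ▸ h1)
    · exact absurd (hhd _ h1).1 (by omega)
  · change θ (ψ.symm (π _)) = _
    rw [← Raw_fw_up n U, ← hU, ← Raw_ev, Raw_inc _ _ (Raw_bd.2 hbd), ev, ev, ← Raw_append, ← ev,
      hπV _ hb2, ← hψW, MulEquiv.symm_apply_apply, hθ]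

end Pool.Agent.MG
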