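import Pool.Agent.Lib.MP_c86c76_al.G.Defs

/-!
The induction on the genus.
-/

set_option autoImplicit false

namespace Pool.Agent.MG

open Pool.Agent.MB Pool.Agent.MN
open FreeGroup hiding map_mul map_inv map_one

/-- The front extension as a homomorphism. -/
def frH (n : ℕ) : MulAut (FN n) →* MulAut (FN (n + 2)) :=
  (MulAut.conj (ka n)⁻¹).toMonoidHom.comp (exA n)

theorem frH_apply (n : ℕ) (φ : MulAut (FN n)) : frH n φ = frA n φ := by
  simp [frH, frA]

theorem gen_of (hA : RwASt) (hW : WholeSt) (hL : LickSt) (hB : BaseSt) (g : ℕ) :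
    GenP (2 * g) g := by
  induction g with
  | zero => exact hB 0 (by omega)
  | succ g ih =>
    by_cases h5 : g + 1 ≤ 5
    · exact hB _ h5
    have key : ∀ f : MulAut (FN (2 * g)) →* MulAut (FN (2 * g + 2)),
        (∀ φ ∈ Lick (2 * g), f φ ∈ Lick (2 * g + 2)) →
        ∀ ψ : MulAut (FN (2 * g)), ψ (ev (2 * g) (rW g)) = ev (2 * g) (rW g) →
          f ψ ∈ Subgroup.closure (Lick (2 * g + 2)) := fun f hf ψ h => by
      have := Subgroup.mem_map_of_mem f (ih ψ h)
      rw [MonoidHom.map_closure] at this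
      exact Subgroup.closure_mono (by rintro _ ⟨φ, h, rfl⟩; exact hf φ h) this
    obtain ⟨f0, d0, -⟩ := hA (2 * g) g rfl
    obtain ⟨-, -, c, hc⟩ := hA (2 * g + 2) (g + 1) rfl
    have hr : c.r = ev (2 * g + 2) (rW (g + 1)) := by rw [Ctx.r, hc, Raw_ev]
    refine hW (2 * g) g (Subgroup.closure (Lick (2 * g + 2))) rfl (by omega) ⟨?_, ?_, ?_, ?_⟩
    · intro j hj
      induction hj using Subgroup.closure_induction with
      | mem x hx => exact (hL _).2.2 (g + 1) rfl x hx
      | one => rfl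
      | mul x y _ _ hx hy => rw [MulAut.mul_apply, hy, hx]
      | inv x _ hx => exact x.symm_apply_eq.2 hx.symm
    · intro φ h1 h2 h3
      obtain ⟨ψ, e, rfl⟩ := abSt dualA rawSt (2 * g) c (rW g) (Raw_full _ _ f0).2 hc d0 φ
        (by rw [hr, h1]) h2 h3
      exact key (exA _) (fun φ h => ((hL _).1 φ h).1) ψ e
    · intro ψ h
      rw [← frH_apply]
      exact key (frH _) (fun φ h => by rw [frH_apply]; exact ((hL _).1 φ h).2) ψ h
    · obtain ⟨T, hT⟩ := (((hL (2 * g + 2)).2.1 g).1 le_rfl).1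
      exact ⟨T, Subgroup.subset_closure ⟨g, Or.inl ⟨le_rfl, Or.inl hT⟩⟩, hT.2 _ (by omega), hT.1⟩

end Pool.Agent.MG
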