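import Pool.Agent.Lib.MP_c86c76_al.G.Defs

/-!
Standard position of the boundary word, of a commutator pair and of a single arc.
-/

set_option autoImplicit false

namespace Pool.Agent.MG

open Pool.Agent.MB Pool.Agent.MN
open FreeGroup hiding map_mul map_inv map_one

theorem Norm_dvd {β : Type} {a : β → ℤ} {d : ℤ} (h : ∀ x, d ∣ a x) (w : FreeGroup β) :
    d ∣ ch a w := by
  induction w using FreeGroup.induction_on with
  | C1 => rw [ch_one]; exact dvd_zero d
  | of x => rw [ch_of]; exact h x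
  | inv_of x ih => rw [ch_inv]; exact (dvd_neg).2 ih
  | mul u v hu hv => rw [ch_mul]; exact dvd_add hu hv

theorem Norm_uni {β : Type} {r : FreeGroup β} (σ : MulAut (FreeGroup β)) (h0 : Null r)
    (h : Uni r) : Uni (σ r) := fun a d hd x => by
  have h1 := h (pb σ.toMonoidHom a) d fun b => by
    have e : pb σ.toMonoidHom (pb σ.symm.toMonoidHom b) = b := funext fun y => by
      rw [pb, ch_pb]
      exact (congrArg (ch b) (σ.symm_apply_apply (of y))).trans (ch_of b y)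
    have := hd (pb σ.symm.toMonoidHom b)
    rwa [show σ r = σ.toMonoidHom r from rfl, om_pb h0, e] at this
  have h2 := Norm_dvd h1 (σ.symm (of x))
  rw [ch_pb] at h2
  rwa [show σ.toMonoidHom (σ.symm (of x)) = of x from σ.apply_symm_apply _, ch_of] at h2

theorem Norm_patC (j h : ℕ) : hd j ++ patC (j + 2) h = patC j (h + 1) := by
  induction h with
  | zero => rfl
  | succ h ih =>
    rw [patC, ← List.append_assoc, ih, show j + 2 + 2 * h = j + 2 * (h + 1) by omega]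
    rfl

theorem Norm_one : ∀ C ∈ (sgn 1).permutations', ∀ q ∈ splits C, q.2.length % 2 = 1 →
    ∃ s : Bool, q = ([(0, s)], [[(0, !s)]]) ∨ q = ([], [[(0, s), (0, !s)]]) := by decide +kernel

/-- A test for neighbours. -/
def Norm_adj (V : RW) (u v : ℕ × Bool) : Bool := decide ((u, v) ∈ V.zip V.tail)

theorem Norm_two : ∀ C ∈ (sgn 2).permutations', ∀ q ∈ splits C, q.2.length % 2 = 0 →
    Norm_adj (q.1 ++ patB 2 q.2) (0, true) (1, true) = true →
    Norm_adj (q.1 ++ patB 2 q.2) (1, true) (0, false) = true →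
    Norm_adj (q.1 ++ patB 2 q.2) (0, false) (1, false) = true →
    q.1 = hd 0 ∧ q.2 = [] := by decide +kernel

/-- The normal form with marked letters, read in the standard letters. -/
theorem Norm_nf {n : ℕ} (c : Ctx (Fin n)) (θ : MulAut (FN n)) (W : List (Fin n × Bool))
    (hW : Full W) (hr : (W.map fun l => θ (lt l)).prod = c.r) (k : ℕ) (m : ℕ → Fin n × Bool)
    (hm : ∀ i < k, ∀ j < k, (m i).1 = (m j).1 → i = j) :
    ∃ (p0 : RW) (Bs : List RW) (h : ℕ) (σ : MulAut (FN n)), k + Bs.length + 2 * h = n ∧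
      (∃ C ∈ (sgn k).permutations', (p0, Bs) ∈ splits C) ∧
      (∀ i < k, σ (io n i) = θ (lt (m i))) ∧ σ (ev n (pat k p0 Bs h)) = c.r ∧
      IsD c ((pat k p0 Bs h).map fun l => σ (ev n [l])) ∧
      ∀ p q : ℕ × Bool, p.1 < k → q.1 < k → Adj W (inst m p) (inst m q) →
        Norm_adj (p0 ++ patB k Bs) p q = true := by
  have hθ : θ (mk W) = c.r := (std_prod θ.toMonoidHom W).symm.trans hr
  have hess : Ess (mk W) := fun θ' y hy => c.ess (θ' * θ⁻¹) y (by
    change θ' (θ.symm c.r) ∈ _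
    rwa [← hθ, MulEquiv.symm_apply_apply])
  obtain ⟨L, p0, Bs, h, ψ, hL, hLi, hc, hp, hB, hψ, hψW, hF, hA⟩ :=
    nfSt exCSt exZSt _ W hW hess k m hm
  rw [Fintype.card_fin] at hLi hc
  have hk : ∀ l ∈ p0 ++ Bs.flatten, l.1 < k := fun l hl => nf_mem_sgn.1 (hp.mem_iff.1 hl)
  have hbd : ∀ l ∈ pat k p0 Bs h, l.1 < n := fun l hl => by
    simp only [pat, List.mem_append] at hl
    rcases hl with (hl | hl) | hl
    · have := hk l (List.mem_append_left _ hl)
      omega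
    · have := std_bdB Bs (fun l h => hk l (List.mem_append_right _ h)) l hl
      omega
    · have := std_bdC _ _ l hl
      omega
  obtain ⟨π, hπ, hπV⟩ := std_pi L hLi
  have h1 : (θ * ψ⁻¹ * π) (ev n (pat k p0 Bs h)) = c.r := by
    change θ (ψ.symm (π _)) = _
    rw [hπV _ hbd, ← hψW, MulEquiv.symm_apply_apply, hθ]
  refine ⟨p0, Bs, h, θ * ψ⁻¹ * π, hc, ⟨_, List.mem_permutations'.2 hp, std_splits _ _ _ hB rfl⟩,
    fun i hi => ?_, h1, ⟨θ * ψ⁻¹, _, hF, ?_, ?_⟩, fun p q h2 h3 h4 => ?_⟩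
  · change θ (ψ.symm (π _)) = _
    rw [← Raw_pos (io n) i, show gw (io n) [(i, true)] = ev n [(i, true)] from rfl,
      hπ _ (by simp only; omega), show inst L (i, true) = L i from rfl, hL i hi, ← hψ i hi,
      MulEquiv.symm_apply_apply, hψ i hi]
  · rw [List.map_map]
    exact List.map_congr_left fun l hl => congrArg (θ * ψ⁻¹) (hπ l (hbd l hl))
  · exact (std_prod ((θ * ψ⁻¹ * π).toMonoidHom.comp (FreeGroup.lift (io n))) _).trans h1
  · have h6 : q ∉ patC (k + Bs.length) h := fun h5 => by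
      have := (nf_memC.1 h5).1
      omega
    rcases nf_adj_append (hA p q h2 h3 h4) with ⟨l1, l2, e⟩ | ⟨l1, l2, e⟩ | ⟨l1, e⟩
    · rw [e]
      exact decide_eq_true (Raw_zip l1 p q l2)
    · exact absurd (by simp [e]) h6
    · exact absurd (by simp [e]) h6

theorem Norm_first (hB : RwBSt) (n : ℕ) (c : Ctx (Fin n)) :
    ∃ g, n = 2 * g ∧ ∃ σ : MulAut (FN n), σ (ev n (rW g)) = c.r := by
  rcases Nat.eq_zero_or_pos n with rfl | hn
  · exact ⟨0, rfl, 1, Subsingleton.elim _ _⟩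
  obtain ⟨p0, Bs, h, σ, hc, ⟨C, hC, hq⟩, -, hr, -, -⟩ :=
    Norm_nf c 1 c.W c.full (std_prod (MonoidHom.id _) c.W) 0 (fun _ => (⟨0, hn⟩, true))
      fun i hi => absurd hi (Nat.not_lt_zero i)
  obtain rfl : C = [] := List.mem_singleton.1 hC
  obtain ⟨rfl, rfl⟩ := Prod.mk.inj (List.mem_singleton.1 hq)
  have hn : n = 2 * h := by simpa using hc.symm
  obtain ⟨-, ⟨ρ, h1, -⟩, -⟩ := hB n h hn
  refine ⟨h, hn, σ * ρ⁻¹, ?_⟩
  change σ (ρ.symm _) = _
  rw [← h1, MulEquiv.symm_apply_apply]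
  exact hr

theorem normSt (hB : RwBSt) : NormSt := by
  intro n c
  obtain ⟨g, hg, σ0, h0⟩ := Norm_first hB n c
  refine ⟨⟨⟨g, hg, σ0, h0⟩, ?_⟩, ?_, ?_⟩
  · have h1 : Null (σ0.symm.toMonoidHom c.r) := Null.map (null_full c.full) _
    rw [← h0] at h1 ⊢
    exact Norm_uni σ0 (by simpa using h1) (hB n g hg).1
  · rintro g p q hg ⟨E, θ, W, hW, e, hr⟩
    rw [e] at hr
    obtain ⟨x, W, rfl, hx, e⟩ := List.map_eq_cons_iff.1 e.symm
    obtain ⟨y, W, rfl, hy, e⟩ := List.map_eq_cons_iff.1 e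
    obtain ⟨x', W, rfl, hx', e⟩ := List.map_eq_cons_iff.1 e
    obtain ⟨y', W, rfl, hy', -⟩ := List.map_eq_cons_iff.1 e
    rw [← hx, ← map_inv, ← std_lt_bar] at hx'
    rw [← hy, ← map_inv, ← std_lt_bar] at hy'
    obtain rfl := std_lt_inj (θ.injective hx')
    obtain rfl := std_lt_inj (θ.injective hy')
    have hxy : x.1 ≠ y.1 := fun h => by
      have := (List.nodup_cons.1 hW.1).1
      rcases nf_eq_or h with h | h <;> simp [h] at this
    obtain ⟨p0, Bs, h, σ, hc, ⟨C, hC, hq⟩, hσ, hr', -, hA⟩ :=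
      Norm_nf c θ _ hW hr 2 (fun i => if i = 0 then x else y) fun i hi j hj e => by
        by_cases h1 : i = 0 <;> by_cases h2 : j = 0 <;> simp only [h1, h2, if_true, if_false] at e
        · omega
        · exact absurd e hxy
        · exact absurd e.symm hxy
        · omega
    obtain ⟨rfl, rfl⟩ : p0 = hd 0 ∧ Bs = [] := Norm_two C hC _ hq (by simp only; omega)
      (hA _ _ (by decide) (by decide) ⟨[], _, rfl⟩) (hA _ _ (by decide) (by decide) ⟨[x], _, rfl⟩)
      (hA _ _ (by decide) (by decide) ⟨[x, y], _, rfl⟩)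
    obtain rfl : g = h + 1 := by simp only [List.length_nil] at hc; omega
    obtain ⟨-, ⟨ρ, h1, h2⟩, -⟩ := hB n (h + 1) hg
    obtain ⟨h2, h3⟩ := h2 (Nat.succ_pos h)
    refine ⟨σ * ρ⁻¹, ?_, ?_, ?_⟩ <;> change σ (ρ.symm _) = _
    · rw [← h1, MulEquiv.symm_apply_apply, ← Norm_patC]
      exact hr'
    · rw [← h2, MulEquiv.symm_apply_apply, hσ 0 (by decide)]
      exact hx
    · rw [← h3, MulEquiv.symm_apply_apply, hσ 1 (by decide)]
      exact hy
  · rintro D x ⟨θ, W, hW, rfl, hr⟩ hx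
    obtain ⟨l, -, rfl⟩ := List.mem_map.1 hx
    obtain ⟨p0, Bs, h, σ, hc, ⟨C, hC, hq⟩, hσ, -, hD, -⟩ :=
      Norm_nf c θ _ hW hr 1 (fun _ => l) fun i hi j hj _ => by omega
    have hb : ∀ u : ℕ × Bool, σ (ev n [bar u]) = (σ (ev n [u]))⁻¹ := fun u => by
      rw [std_ev_bar, map_inv]
    obtain ⟨s, e | e⟩ := Norm_one C hC _ hq (by simp only; omega) <;>
      obtain ⟨rfl, rfl⟩ := Prod.mk.inj e
    · have h1 : Pr c (σ (ev n [(0, s)])) (σ (ev n [(1, true)])) :=
        ⟨_, by rw [← hb, ← hb]; exact hD⟩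
      have h2 : σ (ev n [(0, true)]) = θ (lt l) := (congrArg σ (Raw_pos _ 0)).trans (hσ 0 one_pos)
      refine ⟨σ (ev n [(1, true)]), ?_⟩
      cases s
      · exact Or.inr (by rwa [← h2, ← hb])
      · exact Or.inl (h2 ▸ h1)
    · exact absurd (hb (0, s))
        (((diaSt _ c).2.2.2.2 _ hD).2.2.2.2 _ _ ⟨[σ (ev n [(1, true)])], _, rfl⟩).2.2.2.1

end Pool.Agent.MG
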