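import Pool.Agent.Lib.MP_c86c76_al.G.Defs

/-!
Two arcs of a diagram that cross homologically form a commutator pair.
-/

set_option autoImplicit false

namespace Pool.Agent.MG

open Pool.Agent.MB Pool.Agent.MN
open FreeGroup hiding map_mul map_inv map_one

section Forms

variable {β : Type}

theorem pair_ch_smul (k : ℤ) (a : β → ℤ) (w : FreeGroup β) :
    ch (fun x => k * a x) w = k * ch a w := by
  rw [ch_ext (fun w => k * ch a w) (fun u v => by rw [ch_mul]; ring) w]
  simp only [ch_of]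

theorem pair_om_smul (k : ℤ) (a b : β → ℤ) (w : FreeGroup β) :
    om (fun x => k * a x) b w = k * om a b w := by
  induction w using FreeGroup.induction_on with
  | C1 => simp [om_one]
  | of x => simp [om_of]
  | inv_of x _ => simp only [om_inv, om_of, pair_ch_smul]; ring
  | mul u v hu hv => simp only [om_mul, hu, hv, pair_ch_smul]; ring

theorem pair_cons (l : β × Bool) (A : List (β × Bool)) : mk (l :: A) = lt l * mk A := by
  rw [lt, mul_mk]; rfl

theorem pair_ch_lt {e : β → ℤ} {l : β × Bool} (h : e l.1 = 0) : ch e (lt l) = 0 := by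
  rw [ch_lt, h]; cases l.2 <;> rfl

theorem pair_zero {e : β → ℤ} (b : β → ℤ) {A : List (β × Bool)} (h : ∀ l ∈ A, e l.1 = 0) :
    ch e (mk A) = 0 ∧ om e b (mk A) = 0 := by
  induction A with
  | nil => exact ⟨ch_one e, om_one e b⟩
  | cons l A ih =>
    obtain ⟨h1, h2⟩ := ih fun u hu => h u (List.mem_cons_of_mem _ hu)
    have h3 := h l List.mem_cons_self
    rw [pair_cons, ch_mul, om_mul, h1, h2, pair_ch_lt h3, om_lt, h3]
    cases l.2 <;> simp

/-- The form against the indicator of a letter reads the part enclosed by the letter. -/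
theorem pair_form [DecidableEq β] {l : β × Bool} {A B C : List (β × Bool)}
    (h : (A ++ l :: (B ++ bar l :: C)).Nodup) : ∃ e : β → ℤ, ch e (lt l) = 1 ∧
    (∀ w, w ≠ l.1 → e w = 0) ∧ ∀ b, om e b (mk (A ++ l :: (B ++ bar l :: C))) = ch b (mk B) := by
  let e : β → ℤ := fun w => if w = l.1 then cond l.2 1 (-1) else 0
  have h0 : ∀ w, w ≠ l.1 → e w = 0 := fun w hw => if_neg hw
  have h1 : ch e (lt l) = 1 := by
    rw [ch_lt, show e l.1 = cond l.2 1 (-1) from if_pos rfl]
    cases l.2 <;> rfl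
  have h2 : ∀ u : β × Bool, u ≠ l → u ≠ bar l → e u.1 = 0 := fun u h3 h4 => h0 _ fun h5 => by
    by_cases h6 : u.2 = l.2
    · exact h3 (Prod.ext h5 h6)
    · exact h4 (Prod.ext h5 (Bool.eq_not_of_ne h6))
  simp only [List.nodup_append, List.nodup_cons, List.mem_append, List.mem_cons, not_or] at h
  obtain ⟨-, ⟨⟨a1, -, a2⟩, -, ⟨a3, -⟩, a4⟩, a5⟩ := h
  refine ⟨e, h1, h0, fun b => ?_⟩
  have hA := pair_zero (e := e) b (A := A) fun u hu =>
    h2 u (a5 u hu l (Or.inl rfl)) (a5 u hu _ (Or.inr (Or.inr (Or.inl rfl))))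
  have hB := pair_zero (e := e) b (A := B) fun u hu =>
    h2 u (fun h => a1 (h ▸ hu)) (a4 u hu _ (Or.inl rfl))
  have hC := pair_zero (e := e) b (A := C) fun u hu =>
    h2 u (fun h => a2 (h ▸ hu)) (fun h => a3 (h ▸ hu))
  rw [← mul_mk, pair_cons, ← mul_mk, pair_cons, std_lt_bar]
  simp only [om_mul, ch_mul, om_inv, ch_inv, hA.1, hA.2, hB.1, hB.2, hC.2, h1]
  ring

theorem pair_lin (L : ℕ → β × Bool) {B : RW} (h : ∀ l ∈ B, l.1 < 2) : ∃ c0 c1 : ℤ, ∀ b,
    ch b (mk (B.map (inst L))) = c0 * ch b (lt (L 0)) + c1 * ch b (lt (L 1)) := by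
  induction B with
  | nil => exact ⟨0, 0, fun b => (ch_one b).trans (by ring)⟩
  | cons l B ih =>
    obtain ⟨c0, c1, hc⟩ := ih fun u hu => h u (List.mem_cons_of_mem _ hu)
    have h1 := h l List.mem_cons_self
    have h2 : ∀ b i, ch b (lt (inst L (i, false))) = -ch b (lt (L i)) := fun b i =>
      (congrArg _ (std_lt_bar (L i))).trans (ch_inv _ _)
    have h3 : ∀ b i, ch b (lt (inst L (i, true))) = ch b (lt (L i)) := fun b i => rfl
    obtain ⟨i, s⟩ := l
    simp only [List.map_cons, pair_cons, ch_mul, hc]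
    obtain rfl | rfl : i = 0 ∨ i = 1 := by omega
    · cases s
      · exact ⟨c0 - 1, c1, fun b => by rw [h2]; ring⟩
      · exact ⟨c0 + 1, c1, fun b => by rw [h3]; ring⟩
    · cases s
      · exact ⟨c0, c1 - 1, fun b => by rw [h2]; ring⟩
      · exact ⟨c0, c1 + 1, fun b => by rw [h3]; ring⟩

theorem pair_adj {A X : List β} {p q : β} (hq : q ∉ X) (h : Adj (A ++ X) p q) : Adj A p q := by
  obtain ⟨l1, l2, e⟩ := h
  rw [show l1 ++ p :: q :: l2 = (l1 ++ [p, q]) ++ l2 by simp] at e
  rcases List.append_eq_append_iff.1 e with ⟨Y, e1, rfl⟩ | ⟨Y, rfl, -⟩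
  · rcases List.eq_nil_or_concat Y with rfl | ⟨Y', z, rfl⟩
    · exact ⟨l1, [], by simpa using e1.symm⟩
    · rw [List.concat_eq_append, ← List.append_assoc,
        show l1 ++ [p, q] = (l1 ++ [p]) ++ [q] by simp] at e1
      obtain rfl : q = z := List.singleton_injective (List.append_inj' e1 rfl).2
      simp at hq
  · exact ⟨l1, Y, by simp⟩

end Forms

theorem pair_block (k : ℕ) {Bs : List RW} {B : RW} (h : B ∈ Bs) : ∃ A C j, k ≤ j ∧
    j < k + Bs.length ∧ patB k Bs = A ++ (j, true) :: (B ++ (j, false) :: C) := by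
  induction Bs with
  | nil => simp at h
  | cons B' Bs ih =>
    rw [List.length_cons]
    rcases List.mem_cons.1 h with rfl | h
    · exact ⟨patB k Bs, [], k + Bs.length, by omega, by omega, rfl⟩
    · obtain ⟨A, C, j, h1, h2, e⟩ := ih h
      exact ⟨A, C ++ _, j, h1, by omega, by rw [patB, e]; simp; rfl⟩

theorem pair_patC (j h : ℕ) : ∀ l ∈ patC j h, j ≤ l.1 := by
  induction h with
  | zero => simp [patC]
  | succ h ih =>
    intro l hl
    simp only [patC, List.mem_append, List.mem_cons, List.not_mem_nil, or_false] at hl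
    rcases hl with hl | rfl | rfl | rfl | rfl
    · exact ih l hl
    all_goals simp only; omega

theorem pair_fin : ∀ P ∈ (sgn 2).permutations',
    (∃ s t : Bool, P = [(0, s), (1, t), bar (0, s), bar (1, t)] ∨
      P = [(1, t), (0, s), bar (1, t), bar (0, s)]) ∨
    ∃ i < 3, ∃ B ∈ ([[], [(1, true), (1, false)], [(1, false), (1, true)]] : List RW), ∃ s : Bool,
      P = P.take i ++ (0, s) :: (B ++ bar (0, s) :: P.drop (i + 2 + B.length)) := by
  decide +kernel

theorem pairSt (hN : NormSt) : PairSt := by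
  rintro n c D x y a ⟨θ, W, hW, rfl, hr⟩ hx hy hdu hay
  have hθ : θ (mk W) = c.r := (std_prod θ.toMonoidHom W).symm.trans hr
  have hnull : Null c.r := null_full c.full
  have hax : ch a x = 0 := by
    have h1 := om_skew hnull a a
    rw [hdu a] at h1
    omega
  obtain ⟨lx, -, rfl⟩ := List.mem_map.1 hx
  obtain ⟨ly, -, rfl⟩ := List.mem_map.1 hy
  have hess : Ess (mk W) := fun θ' y hy => c.ess (θ' * θ⁻¹) y (by
    change θ' (θ.symm c.r) ∈ _
    rwa [← hθ, MulEquiv.symm_apply_apply])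
  have hne : lx.1 ≠ ly.1 := fun e => hay (by
    by_cases h : ly.2 = lx.2
    · rw [show ly = lx from Prod.ext e.symm h, hax]
    · rw [show ly = bar lx from Prod.ext e.symm (Bool.eq_not_of_ne h), std_lt_bar, map_inv, ch_inv,
        hax, neg_zero])
  let m : ℕ → Fin n × Bool := fun i => if i = 0 then lx else ly
  obtain ⟨L, p0, Bs, h, ψ, hL, hLi, hc, hp, -, hψ, hψW, hF, hA⟩ :=
    nfSt exCSt exZSt _ W hW hess 2 m fun i hi j hj e => by
      obtain rfl | rfl : i = 0 ∨ i = 1 := by omega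
      all_goals obtain rfl | rfl : j = 0 ∨ j = 1 := by omega
      exacts [rfl, (hne e).elim, (hne e.symm).elim, rfl]
  rw [Fintype.card_fin] at hLi hc
  have hL0 : L 0 = lx := hL 0 (by omega)
  have hL1 : L 1 = ly := hL 1 (by omega)
  obtain ⟨σ, hσ⟩ : ∃ σ : MulAut (FN n), ∀ w, σ (ψ w) = θ w :=
    ⟨θ * ψ⁻¹, fun w => congrArg θ (ψ.symm_apply_apply w)⟩
  have key : ∀ p : ℕ × Bool, p.1 < 2 → σ (lt (inst L p)) = θ (lt (inst m p)) := by
    have h1 : ∀ i < 2, σ (lt (L i)) = θ (lt (m i)) := fun i hi => by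
      rw [hL i hi, ← hσ, hψ i hi]
    rintro ⟨i, _ | _⟩ hi
    · change σ (lt (bar (L i))) = θ (lt (bar (m i)))
      rw [std_lt_bar, std_lt_bar, map_inv, map_inv, h1 i hi]
    · exact h1 i hi
  have k0 : σ (lt lx) = θ (lt lx) :=
    (congrArg (fun l => σ (lt l)) hL0).symm.trans (key (0, true) (by simp))
  have k1 : σ (lt ly) = θ (lt ly) :=
    (congrArg (fun l => σ (lt l)) hL1).symm.trans (key (1, true) (by simp))
  have hr' : σ (mk ((pat 2 p0 Bs h).map (inst L))) = c.r := by rw [← hψW, hσ, hθ]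
  have hnU : Null (mk ((pat 2 p0 Bs h).map (inst L))) := null_full hF
  have hpb : ∀ b : Fin n → ℤ, pb σ.toMonoidHom (pb σ.symm.toMonoidHom b) = b := fun b =>
    funext fun z => by
      rw [pb, ch_pb]
      exact (congrArg _ (σ.symm_apply_apply _)).trans (ch_of b z)
  have hom : ∀ a b, om a b c.r = om (pb σ.toMonoidHom a) (pb σ.toMonoidHom b)
      (mk ((pat 2 p0 Bs h).map (inst L))) := fun a b => by
    rw [← hr']
    exact om_pb hnU σ.toMonoidHom a b
  have hrad : ∀ e : Fin n → ℤ, (∀ b, om e b (mk ((pat 2 p0 Bs h).map (inst L))) = 0) → e = 0 :=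
    fun e he => by
      have h1 := (hN n c).1.2.zero (a := pb σ.symm.toMonoidHom e) fun b => by rw [hom, hpb, he]
      rw [← hpb e, h1]
      exact funext fun z => ch_zero _
  have hd : ∀ b, om (pb σ.toMonoidHom a) b (mk ((pat 2 p0 Bs h).map (inst L))) = ch b (lt lx) :=
    fun b => by
      have h1 := hdu (pb σ.symm.toMonoidHom b)
      rw [hom, hpb, ← k0, ch_pb] at h1
      exact h1.trans (congrArg _ (σ.symm_apply_apply _))
  have ha0 : ch (pb σ.toMonoidHom a) (lt lx) = 0 := (ch_pb _ _ _).trans ((congrArg _ k0).trans hax)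
  have ha1 : ch (pb σ.toMonoidHom a) (lt ly) ≠ 0 := fun e =>
    hay ((congrArg _ k1).symm.trans ((ch_pb σ.toMonoidHom _ _).symm.trans e))
  generalize pb σ.toMonoidHom a = a' at hd ha0 ha1
  have hlt : ∀ l ∈ p0 ++ Bs.flatten, l.1 < 2 := fun l hl => (Raw_mem_sgn 2 l).1 (hp.mem_iff.1 hl)
  obtain rfl : Bs = [] := List.eq_nil_iff_forall_not_mem.2 fun B hB => by
    obtain ⟨A, C, j, j1, j2, e⟩ := pair_block 2 hB
    have e1 : (pat 2 p0 Bs h).map (inst L) = (p0 ++ A).map (inst L) ++ L j :: (B.map (inst L) ++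
        bar (L j) :: (C ++ patC (2 + Bs.length) h).map (inst L)) := by
      rw [pat, e]
      simp [inst]
    rw [e1] at hF hd hrad hnU
    obtain ⟨u, u1, u2, u3⟩ := pair_form hF.1
    obtain ⟨c0, c1, hc'⟩ := pair_lin L (B := B) fun l hl =>
      hlt l (List.mem_append_right _ (List.mem_flatten.2 ⟨B, hB, hl⟩))
    rw [hL0, hL1] at hc'
    have v0 : ch u (lt lx) = 0 := pair_ch_lt (u2 _ fun e => by
      have := hLi 0 (by omega) j (by omega) (hL0 ▸ e)
      omega)
    have v1 : ch u (lt ly) = 0 := pair_ch_lt (u2 _ fun e => by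
      have := hLi 1 (by omega) j (by omega) (hL1 ▸ e)
      omega)
    have h1 := om_skew hnU a' u
    rw [hd, u3, hc', v0, ha0, mul_zero, zero_add, zero_eq_neg] at h1
    obtain rfl : c1 = 0 := (mul_eq_zero.1 h1).resolve_right ha1
    have h2 : u = fun z => c0 * a' z := sub_eq_zero.1 (hrad _ fun b => by
      rw [om_sub_left, pair_om_smul, u3, hd, hc']
      ring)
    rw [h2, pair_ch_smul] at v1 u1
    rw [(mul_eq_zero.1 v1).resolve_right ha1, zero_mul] at u1
    exact zero_ne_one u1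
  rw [List.flatten_nil, List.append_nil] at hp hlt
  have hpat : pat 2 p0 [] h = p0 ++ patC 2 h := by simp [pat, patB]
  rw [hpat] at hF hd hnU hr' hA
  have fin : ∀ p q : ℕ × Bool, p0 = [p, q, bar p, bar q] →
      Pr c (σ (lt (inst L p))) (σ (lt (inst L q))) ∧ ∀ s t,
      (Pm s (θ (lt lx)) ∨ Pm s (θ (lt ly))) → (Pm t (θ (lt lx)) ∨ Pm t (θ (lt ly))) →
      Adj (W.map fun l => θ (lt l)) s t → Adj [σ (lt (inst L p)), σ (lt (inst L q)),
        (σ (lt (inst L p)))⁻¹, (σ (lt (inst L q)))⁻¹] s t := fun p q e => by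
    have e1 : [σ (lt (inst L p)), σ (lt (inst L q)), (σ (lt (inst L p)))⁻¹,
        (σ (lt (inst L q)))⁻¹] = p0.map fun l => σ (lt (inst L l)) := by
      simp only [e, List.map_cons, List.map_nil, std_inst_bar, std_lt_bar, map_inv]
    have e2 : ∀ s, Pm s (θ (lt lx)) ∨ Pm s (θ (lt ly)) →
        ∃ z : ℕ × Bool, z.1 < 2 ∧ s = θ (lt (inst m z)) := by
      rintro s ((rfl | rfl) | rfl | rfl)
      · exact ⟨(0, true), by simp, rfl⟩
      · exact ⟨(0, false), by simp, by rw [← map_inv, ← std_lt_bar]; rfl⟩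
      · exact ⟨(1, true), by simp, rfl⟩
      · exact ⟨(1, false), by simp, by rw [← map_inv, ← std_lt_bar]; rfl⟩
    refine ⟨⟨(patC 2 h).map fun l => σ (lt (inst L l)), σ, _, hF, ?_, ?_⟩, fun s t hs ht hadj => ?_⟩
    · rw [List.map_map, List.map_append]
      exact congrArg (· ++ _) e1
    · have e3 := (std_prod σ.toMonoidHom _).trans hr'
      rw [List.map_map, List.map_append] at e3
      exact (congrArg List.prod (congrArg (· ++ _) e1)).trans e3
    · obtain ⟨z, z1, rfl⟩ := e2 s hs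
      obtain ⟨w, w1, rfl⟩ := e2 t ht
      obtain ⟨u, v, huv, hu, hv⟩ := std_adj hadj
      obtain rfl := std_lt_inj (θ.injective hu)
      obtain rfl := std_lt_inj (θ.injective hv)
      obtain ⟨l1, l2, e4⟩ := pair_adj (fun hw => by
        have := pair_patC 2 h w hw
        omega) (hA z w z1 w1 huv)
      rw [e1, e4, ← key z z1, ← key w w1, List.map_append]
      exact ⟨_, _, rfl⟩
  have pm : ∀ i s, Pm (σ (lt (L i))) (σ (lt (inst L (i, s)))) := fun i s => by
    cases s
    · exact Or.inr (by rw [← map_inv, ← std_lt_bar, ← std_inst_bar]; rfl)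
    · exact Or.inl rfl
  have pm0 := pm 0
  have pm1 := pm 1
  rw [hL0, k0] at pm0
  rw [hL1, k1] at pm1
  rcases pair_fin p0 (List.mem_permutations'.2 hp) with ⟨s, t, e | e⟩ | ⟨i, -, B, hB, s, e⟩
  · exact ⟨_, _, (fin _ _ e).1, Or.inl ⟨pm0 s, pm1 t⟩, (fin _ _ e).2⟩
  · exact ⟨_, _, (fin _ _ e).1, Or.inr ⟨pm1 t, pm0 s⟩, (fin _ _ e).2⟩
  · generalize p0.take i = A, p0.drop (i + 2 + B.length) = C at e
    have e1 : (p0 ++ patC 2 h).map (inst L) = A.map (inst L) ++ inst L (0, s) :: (B.map (inst L) ++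
        bar (inst L (0, s)) :: (C ++ patC 2 h).map (inst L)) := by
      rw [e, ← std_inst_bar]
      simp
    rw [e1] at hF hd hnU
    obtain ⟨u, u1, -, u3⟩ := pair_form hF.1
    have h1 := om_skew hnU a' u
    have h2 : ch a' (mk (B.map (inst L))) = 0 := by
      have h3 : lt (inst L (1, false)) = (lt (inst L (1, true)))⁻¹ := std_lt_bar (L 1)
      simp only [List.mem_cons, List.not_mem_nil, or_false] at hB
      rcases hB with rfl | rfl | rfl <;>
        simp only [List.map_cons, List.map_nil, pair_cons, ch_mul, h3, ch_inv, ← one_eq_mk, ch_one] <;>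
        ring
    rw [hd, u3, h2, neg_zero, ← hL0] at h1
    cases s
    · rw [show inst L (0, false) = bar (L 0) from rfl, std_lt_bar, ch_inv, h1] at u1
      exact absurd u1 (by decide)
    · exact absurd (h1.symm.trans u1) (by decide)

end Pool.Agent.MG
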