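import Pool.Agent.Lib.MP_c86c76_al.G.Defs

/-!
Order facts for commutator pairs and the partner of a crossing arc.
-/

set_option autoImplicit false

namespace Pool.Agent.MG

open Pool.Agent.MB Pool.Agent.MN
open FreeGroup hiding map_mul map_inv map_one

theorem pr_adj {β : Type} (u v w z : β) (E : List β) :
    Adj (u :: v :: w :: z :: E) u v ∧ Adj (u :: v :: w :: z :: E) v w ∧
      Adj (u :: v :: w :: z :: E) w z :=
  ⟨⟨[], _, rfl⟩, ⟨[u], _, rfl⟩, ⟨[u, v], _, rfl⟩⟩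

theorem pr_four {β : Type} {u v w z s t : β} (h : Adj [u, v, w, z] s t) :
    (s = u ∧ t = v) ∨ (s = v ∧ t = w) ∨ (s = w ∧ t = z) := by
  obtain ⟨l1, l2, h⟩ := h
  rcases l1 with _ | ⟨a, _ | ⟨b, _ | ⟨d, _ | ⟨e, l⟩⟩⟩⟩ <;> simp at h <;> simp [h]

theorem pr_lo {n : ℕ} {c : Ctx (Fin n)} {a p : FN n} (h : Pr c a p) :
    (Lo c.ρ p a⁻¹ ∧ Lo c.ρ a⁻¹ p⁻¹ ∧ Lo c.ρ p⁻¹ a) ∧
      Lo c.ρ a⁻¹ (a * p)⁻¹ ∧ Lo c.ρ (a * p)⁻¹ a ∧ Lo c.ρ a (a * p) := by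
  obtain ⟨E, h⟩ := h
  obtain ⟨h1, h2, h3⟩ := pr_adj a p a⁻¹ p⁻¹ E
  obtain ⟨⟨D, hD, hr⟩, k⟩ := adjRA _ c _ a p h h1
  obtain ⟨-, k2, -, -, k5, k6⟩ := k D hD hr
  have l := (plA _ c _ h).1
  have l' := (plA _ c _ hD).1
  exact ⟨⟨l _ _ h1, l _ _ h2, by simpa only [inv_inv] using l _ _ h3⟩, l' _ _ (k5 _ h2),
    by simpa only [inv_inv] using l' _ _ (k2 _ h3), by simpa only [inv_inv] using l' _ _ k6⟩

theorem pr_pm {G : Type} [Group G] {y p q : G} (h : Pm y p) (h' : Pm y q) : p = q ∨ p = q⁻¹ := by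
  rcases h with rfl | rfl
  · exact h'
  · exact h'.symm.imp (fun e => inv_injective e) fun e => by rw [← e, inv_inv]

theorem prSt : PrSt := by
  intro n c
  obtain ⟨-, -, -, -, irr, tr, -⟩ := cycA (Fin n) c.ρ
  obtain ⟨-, -, hm, -, hall⟩ := diaSt (Fin n) c
  refine ⟨?_, fun p q q' h h' => ?_, fun a p q y h h' hp hq => ?_, ?_⟩
  · rintro p q ⟨E, h⟩
    obtain ⟨hn, -, -, -, ha⟩ := hall _ h
    have hs := (ha _ _ (pr_adj p q p⁻¹ q⁻¹ E).2.2).2.2.2.2.2.1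
    simp only [List.nodup_cons, List.mem_cons, not_or] at hn
    obtain ⟨⟨n1, n2, n3, -⟩, ⟨n4, n5, -⟩, ⟨n6, -⟩, -⟩ := hn
    simp only [slide, List.flatMap_cons, inv_inv, if_neg n2, if_neg n3, if_neg n4, if_neg n5,
      if_neg (Ne.symm n1), if_neg (Ne.symm n6), if_true, mul_inv_rev, List.cons_append,
      List.nil_append] at hs
    exact ⟨_, by rw [inv_inv, mul_inv_rev]; exact hs⟩
  · obtain ⟨⟨-, l1, l2⟩, -⟩ := pr_lo h
    obtain ⟨⟨-, m1, m2⟩, -⟩ := pr_lo h'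
    rw [inv_inv] at m1
    exact irr _ (tr _ _ _ (tr _ _ _ l1 l2) (tr _ _ _ m1 m2))
  · obtain ⟨⟨l1, l2, l3⟩, l4, l5, l6⟩ := pr_lo h
    obtain ⟨⟨m1, m2, m3⟩, m4, m5, m6⟩ := pr_lo h'
    rcases hp with hp | hp <;> rcases hq with hq | hq
    · rcases pr_pm hp hq with e | e
      · exact e
      · exact (irr _ (tr _ _ _ l1 (e ▸ m2))).elim
    · rcases pr_pm hp hq with e | e
      · exact (irr p (tr _ _ _ (tr _ _ _ l1 (tr _ _ _ l2 l3)) (by rw [e]; exact m6))).elim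
      · exact (irr p (tr _ _ _ l1 (by rw [e]; exact m4))).elim
    · rcases pr_pm hq hp with e | e
      · exact (irr q (tr _ _ _ (tr _ _ _ m1 (tr _ _ _ m2 m3)) (by rw [e]; exact l6))).elim
      · exact (irr q (tr _ _ _ m1 (by rw [e]; exact l4))).elim
    · rcases pr_pm hp hq with e | e
      · exact mul_left_cancel e
      · exact (irr (a * p) (tr _ _ _ (by rw [e]; exact m5) l6)).elim
  · rintro φ p q hφ ⟨E, h⟩
    exact ⟨E.map φ, by simpa only [List.map_cons, map_inv] using hm φ _ hφ h⟩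

theorem partSt (hP : PairSt) (hR : PrSt) : PartSt := by
  intro n c D x y a hD hx hy hd hc hn
  obtain ⟨u, v, h, hs, hadj⟩ := hP n c D x y a hD hx hy hd hc
  have key : ∀ p, (∀ s t, Adj [u, v, u⁻¹, v⁻¹] s t →
      ∃ k : ℤ, Pm (s * t) (p * x ^ k) ∨ Pm (s * t) (x * (p * x ^ k))) → ∀ s, Pm s x →
      (Adj D y s → ∃ k : ℤ, Pm (y * s) (p * x ^ k) ∨ Pm (y * s) (x * (p * x ^ k))) ∧
      (Adj D s y → ∃ k : ℤ, Pm (s * y) (p * x ^ k) ∨ Pm (s * y) (x * (p * x ^ k))) :=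
    fun p H s hs => ⟨fun e => H _ _ (hadj _ _ (.inr (.inl rfl)) (.inl hs) e),
      fun e => H _ _ (hadj _ _ (.inl hs) (.inr (.inl rfl)) e)⟩
  rcases hs with ⟨rfl | e, h2⟩ | ⟨h2, rfl | e⟩
  · refine ⟨v, h, .inl h2, key v fun s t e => ?_⟩
    rcases pr_four e with ⟨rfl, rfl⟩ | ⟨rfl, rfl⟩ | ⟨rfl, rfl⟩
    · exact ⟨0, .inr (.inl (by group))⟩
    · exact ⟨-1, .inl (.inl (by group))⟩
    · exact ⟨1, .inl (.inr (by group))⟩
  · exact (hn v (by rwa [e, inv_inv])).elim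
  · exact (hn _ ((hR n c).1 _ _ h)).elim
  · subst e
    refine ⟨v * u, (hR n c).1 _ _ h, .inr (by rwa [inv_mul_cancel_left]), key _ fun s t e => ?_⟩
    rcases pr_four e with ⟨rfl, rfl⟩ | ⟨rfl, rfl⟩ | ⟨rfl, rfl⟩
    · exact ⟨-1, .inr (.inl (by group))⟩
    · exact ⟨1, .inr (.inr (by group))⟩
    · exact ⟨0, .inl (.inr (by group))⟩

end Pool.Agent.MG
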