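import Pool.Agent.Lib.MP_c86c76_al.G.Defs

/-!
The standard boundary word gives a base diagram.
-/

set_option autoImplicit false

namespace Pool.Agent.MG

open Pool.Agent.MB Pool.Agent.MN
open FreeGroup hiding map_mul map_inv map_one

theorem rwA_perm (g : ℕ) : (rW g).Perm (sgn (2 * g)) := by
  induction g with
  | zero => rfl
  | succ g ih =>
    have : sgn (2 * (g + 1)) =
        sgn (2 * g) ++ [(2 * g, true), (2 * g, false), (2 * g + 1, true), (2 * g + 1, false)] := by
      simp [sgn, Nat.mul_succ, List.range_succ]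
    rw [this]
    exact List.perm_append_comm.trans (ih.append (.cons _ (.swap _ _ _)))

theorem rwA_tw {P S : RW} {u : ℕ × Bool} (h : u ∉ P) :
    (P ++ u :: S).takeWhile (fun v => v ≠ u) = P := by
  rw [List.takeWhile_append_of_pos fun a ha => by simpa using fun e : a = u => h (e ▸ ha)]
  simp

theorem rwA_clo {G : Type} [Group G] (T : ℕ → G) (K : Subgroup G) (m : ℕ) (P : RW)
    (hP : ∀ l ∈ P, 2 * m ≤ l.1) (hK : gw T P ∈ K)
    (h : ∀ i < 2 * m, gw T (del (P ++ rW m) (i, true)) ∈ K) : ∀ i < 2 * m, T i ∈ K := by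
  induction m generalizing P with
  | zero => exact fun i hi => absurd hi (Nat.not_lt_zero i)
  | succ m ih =>
    have n0 : ∀ s, (2 * m, s) ∉ P := fun s h => by have := hP _ h; omega
    have n1 : ∀ s, (2 * m + 1, s) ∉ P := fun s h => by have := hP _ h; omega
    have h0 := h (2 * m) (by omega)
    have h1 := h (2 * m + 1) (by omega)
    have e0 := rwA_tw (S := [(2 * m + 1, true), (2 * m, false), (2 * m + 1, false)] ++ rW m)
      (n0 true)
    have e1 := rwA_tw (P := P ++ [(2 * m, true)]) (u := (2 * m + 1, true))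
      (S := [(2 * m, false), (2 * m + 1, false)] ++ rW m) (by simp [n1])
    have e2 := rwA_tw (P := P ++ [(2 * m, true), (2 * m + 1, true)]) (u := (2 * m, false))
      (S := [(2 * m + 1, false)] ++ rW m) (by simp [n0])
    have e3 := rwA_tw (P := P ++ [(2 * m, true), (2 * m + 1, true), (2 * m, false)])
      (u := (2 * m + 1, false)) (S := rW m) (by simp [n1])
    simp only [del, rW, hd, bar, List.append_assoc, List.cons_append, List.nil_append,
      Bool.not_true] at h0 h1 e0 e1 e2 e3
    simp only [e0, e1, e2, e3, ← Raw_iv_eq, Raw_append, Raw_cons, Raw_iv, Raw_nil, cond_true,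
      cond_false] at h0 h1
    have hab : T (2 * m) * T (2 * m + 1) ∈ K := by
      convert mul_mem (mul_mem (mul_mem (inv_mem hK) h1) (inv_mem h0)) hK using 1
      group
    have ha : T (2 * m) ∈ K := by
      convert mul_mem (mul_mem (mul_mem (mul_mem (inv_mem hab) (inv_mem hK)) h1) hK) hab using 1
      group
    have hb : T (2 * m + 1) ∈ K := (K.mul_mem_cancel_left ha).1 hab
    have := ih (P ++ hd (2 * m)) (fun l hl => (List.mem_append.1 hl).elim
      (fun h => by have := hP l h; omega) fun h => by
        simp only [hd, List.mem_cons, List.not_mem_nil, or_false] at h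
        rcases h with rfl | rfl | rfl | rfl <;> simp) (by
      simp only [hd, Raw_append, Raw_cons, Raw_nil, cond_true, cond_false]
      exact mul_mem hK (mul_mem ha (mul_mem hb (mul_mem (inv_mem ha) (mul_mem (inv_mem hb)
        (one_mem _)))))) fun i hi => by
      rw [List.append_assoc]
      exact h i (by omega)
    intro i hi
    obtain hi | rfl | rfl : i < 2 * m ∨ i = 2 * m ∨ i = 2 * m + 1 := by omega
    exacts [this i hi, ha, hb]

/-- The ranks of the sides of the standard word. -/
def rwA_rk (l : ℕ × Bool) : ℕ := 4 * (l.1 / 2) + cond l.2 (3 - 3 * (l.1 % 2)) (1 + l.1 % 2)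

theorem rwA_ch (g : ℕ) :
    (((rW g).zip (rW g).tail).all fun q => Nat.blt (rwA_rk q.2) (rwA_rk (bar q.1))) = true := by
  induction g with
  | zero => rfl
  | succ g ih =>
    cases g with
    | zero => rfl
    | succ g =>
      simp only [rW, hd, List.cons_append, List.nil_append, List.tail_cons, List.zip_cons_cons,
        List.all_cons, Bool.and_eq_true, Nat.blt_eq, rwA_rk, bar, Bool.not_true, Bool.not_false,
        cond_true, cond_false] at ih ⊢
      exact ⟨by omega, by omega, by omega, by omega, ih⟩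

theorem rwASt : RwASt := fun n g hn => by
  have h1 : fullR n (rW g) = true := decide_eq_true (hn ▸ rwA_perm g)
  have h2 : Subgroup.closure (Set.range fun x : Fin n => ev n (del (rW g) ((x : ℕ), true))) = ⊤ := by
    rw [eq_top_iff, ← closure_range_of, Subgroup.closure_le]
    rintro _ ⟨x, rfl⟩
    rw [← Raw_of, ev, Raw_pos]
    refine rwA_clo (io n) _ g [] (fun _ h => nomatch h) ?_ (fun i hi => ?_) x (hn ▸ x.2)
    · rw [Raw_nil]
      exact one_mem _
    · exact Subgroup.subset_closure ⟨⟨i, hn ▸ hi⟩, rfl⟩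
  obtain ⟨f, b⟩ := Raw_full _ _ h1
  refine ⟨h1, h2, ⟨_, fun l => rwA_rk (l.1, l.2), f, essSt _ _ f ?_,
    Raw_ch _ _ rwA_rk b (rwA_ch g)⟩, rfl⟩
  simpa only [Raw_del _ _ _ b, ← Raw_ev] using h2

end Pool.Agent.MG
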