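import Pool.Agent.Lib.MP_c86c76_al.G.Defs

/-!
The form of the standard word and two renamings of its letters.
-/

set_option autoImplicit false

namespace Pool.Agent.MG

open Pool.Agent.MB Pool.Agent.MN
open FreeGroup hiding map_mul map_inv map_one

section
variable {G : Type} [Group G]

theorem RwB_hd (T : ℕ → G) (j : ℕ) :
    gw T (hd j) = T j * T (j + 1) * (T j)⁻¹ * (T (j + 1))⁻¹ := by
  simp only [hd, Raw_cons, Raw_nil, cond_true, cond_false, mul_one, mul_assoc]

theorem RwB_succ (T : ℕ → G) (m : ℕ) : gw T (rW (m + 1)) = gw T (hd (2 * m)) * gw T (rW m) :=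
  Raw_append T _ _

theorem RwB_shift (T : ℕ → G) (m : ℕ) :
    gw T (rW (m + 1)) = gw (fun i => T (i + 2)) (rW m) * gw T (hd 0) := by
  induction m with
  | zero => rw [RwB_succ, rW, Raw_nil, Raw_nil, mul_one, one_mul]
  | succ m ih => rw [RwB_succ, ih, RwB_succ, RwB_hd, RwB_hd _ (2 * m), ← mul_assoc]; rfl

theorem RwB_congr (T T' : ℕ → G) (m : ℕ) (h : ∀ i < 2 * m, T i = T' i) :
    gw T (rW m) = gw T' (rW m) := by
  induction m with
  | zero => rw [rW, Raw_nil, Raw_nil]
  | succ m ih =>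
    rw [RwB_succ, RwB_succ, RwB_hd, RwB_hd, ih fun i hi => h i (by omega), h _ (by omega),
      h (2 * m + 1) (by omega)]

theorem RwB_pat (m : ℕ) (T T' : ℕ → G)
    (h : ∀ i < 2 * m, T' i = T (2 * m - 2 - 2 * (i / 2) + i % 2)) :
    gw T' (patC 0 m) = gw T (rW m) := by
  induction m generalizing T with
  | zero => rw [rW, patC, Raw_nil, Raw_nil]
  | succ m ih =>
    rw [RwB_shift, ← ih (fun i => T (i + 2)) fun i hi =>
      (h i (by omega)).trans (congrArg T (by omega)),
      show patC 0 (m + 1) = patC 0 m ++ hd (0 + 2 * m) from rfl, Raw_append, RwB_hd, RwB_hd,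
      (h (0 + 2 * m) (by omega)).trans (congrArg T (by omega : _ = 0)),
      (h (0 + 2 * m + 1) (by omega)).trans (congrArg T (by omega : _ = 0 + 1))]

end

theorem RwB_io (n i : ℕ) (a b : Fin n → ℤ) : om a b (io n i) = 0 := by
  unfold io
  split_ifs
  exacts [om_of _ _ _, om_one _ _]

theorem RwB_om (n m : ℕ) (a b : Fin n → ℤ) : om a b (ev n (rW m)) = ∑ j ∈ Finset.range m,
    (ch a (io n (2 * j)) * ch b (io n (2 * j + 1)) -
      ch a (io n (2 * j + 1)) * ch b (io n (2 * j))) := by
  induction m with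
  | zero => rw [rW, ev, Raw_nil, om_one, Finset.sum_range_zero]
  | succ m ih =>
    rw [Finset.sum_range_succ, ← ih, ev, RwB_succ, RwB_hd]
    simp only [om_mul, om_inv, ch_mul, ch_inv, RwB_io, ev]
    ring

theorem RwB_ind {n k : ℕ} (hk : k < n) (c : ℤ) (i : ℕ) :
    ch (fun x : Fin n => if (x : ℕ) = k then c else 0) (io n i) = if i = k then c else 0 := by
  unfold io
  by_cases h : i < n
  · rw [dif_pos h, ch_of]
  · rw [dif_neg h, ch_one, if_neg (by omega)]

theorem RwB_uni (g : ℕ) : Uni (ev (2 * g) (rW g)) := by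
  intro a d h x
  have hx := x.2
  have e : a x = ch a (io (2 * g) x) := by rw [io, dif_pos hx, ch_of]
  obtain ⟨j, hj | hj⟩ := Nat.even_or_odd' (x : ℕ)
  · have := h fun y => if (y : ℕ) = 2 * j + 1 then 1 else 0
    simp only [RwB_om, RwB_ind (by omega : 2 * j + 1 < 2 * g)] at this
    rw [Finset.sum_eq_single j (fun i _ hi => by
      rw [if_neg (by omega), if_neg (by omega)]; ring) fun hi => absurd (Finset.mem_range.2
        (by omega)) hi, if_pos rfl, if_neg (by omega), mul_one, mul_zero, sub_zero] at this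
    rwa [e, hj]
  · have := h fun y => if (y : ℕ) = 2 * j then -1 else 0
    simp only [RwB_om, RwB_ind (by omega : 2 * j < 2 * g)] at this
    rw [Finset.sum_eq_single j (fun i _ hi => by
      rw [if_neg (by omega), if_neg (by omega)]; ring) fun hi => absurd (Finset.mem_range.2
        (by omega)) hi, if_pos rfl, if_neg (by omega), mul_zero, zero_sub, mul_neg, mul_one,
      neg_neg] at this
    rwa [e, hj]

theorem RwB_rho (g : ℕ) : ∃ ρ : MulAut (FN (2 * g)), ∀ i < 2 * g,
    ρ (io (2 * g) i) = io (2 * g) (2 * g - 2 - 2 * (i / 2) + i % 2) := by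
  let σ : Fin (2 * g) → Fin (2 * g) := fun i =>
    ⟨2 * g - 2 - 2 * (i / 2) + i % 2, by have := i.2; omega⟩
  have hσ : Function.Involutive σ := fun i => Fin.ext (by
    have := i.2
    show 2 * g - 2 - 2 * ((2 * g - 2 - 2 * (i / 2) + i % 2) / 2) +
      (2 * g - 2 - 2 * (i / 2) + i % 2) % 2 = i
    omega)
  refine ⟨FreeGroup.freeGroupCongr hσ.toPerm, fun i hi => ?_⟩
  rw [io, dif_pos hi, io, dif_pos (by omega)]
  exact FreeGroup.map.of

theorem rwBSt : RwBSt := by
  rintro _ g rfl
  refine ⟨RwB_uni g, ?_, ?_, fun x => if (x : ℕ) = 2 * g + 1 then -1 else 0, fun b => ?_, ?_⟩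
  · obtain ⟨ρ, hρ⟩ := RwB_rho g
    refine ⟨ρ, (Raw_map _ _ ρ.toMonoidHom _).trans (RwB_pat g _ _ hρ), fun h => ⟨?_, ?_⟩⟩
    · exact hρ 0 (by omega)
    · exact (hρ 1 (by omega)).trans (congrArg _ (by omega))
  · refine (Raw_map _ _ (ka (2 * g)).toMonoidHom _).trans ((RwB_shift _ g).trans ?_)
    congr 1
    · exact (RwB_congr _ _ g fun i hi => (ka_io hi).trans (inc_io hi).symm).trans
        (Raw_map _ _ (inc (2 * g)) _).symm
    · rw [ev, RwB_hd, RwB_hd]
      have h0 := ka_low (n := 2 * g) (by omega : 0 < 2)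
      have h1 := ka_low (n := 2 * g) (by omega : 0 + 1 < 2)
      rw [zero_add] at h0
      rw [show 0 + 1 + 2 * g = 2 * g + 1 by omega] at h1
      rw [← h0, ← h1]
      rfl
  · simp only [RwB_om, RwB_ind (by omega : 2 * g + 1 < 2 * g + 2)]
    rw [Finset.sum_eq_single g (fun i _ hi => by
      rw [if_neg (by omega), if_neg (by omega)]; ring) fun hi => absurd (Finset.mem_range.2
        (by omega)) hi, if_pos rfl, if_neg (by omega)]
    ring
  · rw [RwB_ind (by omega), if_pos rfl]
    decide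

end Pool.Agent.MG
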