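import Pool.Agent.Lib.MP_c86c76_al.G.Defs

/-!
Pairs in the complement of a handle, and the passage from the stabiliser of the first arc to the
whole group.
-/

set_option autoImplicit false

namespace Pool.Agent.MG

open Pool.Agent.MB Pool.Agent.MN
open FreeGroup hiding map_mul map_inv map_one

theorem key_pos {n : ℕ} {c : Ctx (Fin n)} {p q : FN n} (h : Pr c p q) : 0 < n := by
  obtain ⟨E, θ, _ | ⟨l, W⟩, -, e, -⟩ := h
  · cases e
  · exact l.1.pos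

theorem key_hd (n : ℕ) (σ : MulAut (FN n)) :
    exA n σ (ev (n + 2) (hd n)) = ev (n + 2) (hd n) := by
  simp only [ev, hd, Raw_cons, Raw_nil, cond_true, cond_false, map_mul, map_inv, map_one,
    exA_new σ le_rfl, exA_new σ n.le_succ]

theorem key_T (hB : RwBSt) {n g : ℕ} (hn : n = 2 * g) (h0 : 0 < n) (θ : MulAut (FN (n + 2)))
    (σ : MulAut (FN n)) :
    (θ * exA n σ * ka n) (ev (n + 2) (rW (g + 1))) =
      θ (inc n (σ (ev n (rW g))) * ev (n + 2) (hd n)) ∧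
    (θ * exA n σ * ka n) (io (n + 2) n) = θ (inc n (σ (io n (n - 2)))) ∧
    (θ * exA n σ * ka n) (io (n + 2) (n + 1)) = θ (inc n (σ (io n (n - 1)))) := by
  have e : ∀ i < n, (θ * exA n σ * ka n) (io (n + 2) (i + 2)) = θ (inc n (σ (io n i))) :=
    fun i hi => by rw [MulAut.mul_apply, MulAut.mul_apply, ka_io hi, ← inc_io hi, exA_inc]
  refine ⟨?_, ?_, ?_⟩
  · rw [MulAut.mul_apply, MulAut.mul_apply, (hB n g hn).2.2.1, map_mul, exA_inc, key_hd]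
  · rw [← e _ (by omega), show n - 2 + 2 = n by omega]
  · rw [← e _ (by omega), show n - 1 + 2 = n + 1 by omega]

theorem key_fix {G : Type} [Group G] {j φ : MulAut G} {x : G} (h : φ x = j x) :
    (j⁻¹ * φ) x = x := by
  rw [MulAut.mul_apply, h, MulAut.inv_apply_self]

theorem keySt (hB : RwBSt) (hN : NormSt) : KeySt := by
  intro n g J hn ⟨h1, h2, h3, _⟩ c0 θ p q p' q' hθ hp hp' ⟨j, hj, ja, jb⟩
  obtain ⟨σ, s1, s2, s3⟩ := (hN n c0).2.1 g p q hn hp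
  obtain ⟨τ, t1, t2, t3⟩ := (hN n c0).2.1 g p' q' hn hp'
  obtain ⟨u1, u2, u3⟩ := key_T hB hn (key_pos hp) θ σ
  obtain ⟨-, v2, v3⟩ := key_T hB hn (key_pos hp) θ τ
  have m1 := J.mul_mem hj (h2 _ (key_fix (j := j) (by rw [u1, s1, hθ, h1 j hj]))
    (key_fix (by rw [u2, s2, ja])) (key_fix (by rw [u3, s3, jb])))
  have m2 := J.mul_mem m1 (h3 (σ⁻¹ * τ) (key_fix (t1.trans s1.symm)))
  refine ⟨θ * exA n τ * ka n, ?_, by rw [v2, t2], by rw [v3, t3]⟩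
  convert m2 using 1
  rw [frA, map_mul, map_inv]
  group

theorem key_pm {G : Type} [Group G] {x y z : G} (h : Pm x y) (h' : Pm x z) : Pm y z := by
  rcases h with rfl | rfl
  · exact h'
  · exact h'.symm.imp (fun e => inv_injective e) fun e => inv_eq_iff_eq_inv.1 e

theorem key_base (hA : RwASt) {n g : ℕ} (hn : n = 2 * g) : ∃ c : Ctx (Fin (n + 2)),
    c.r = ev (n + 2) (rW (g + 1)) ∧ io (n + 2) n ∈ c.D0 ∧
      Pr c (io (n + 2) n) (io (n + 2) (n + 1)) := by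
  obtain ⟨-, -, c, hc⟩ := hA (n + 2) (g + 1) (by omega)
  have e : c.D0 = io (n + 2) n :: io (n + 2) (n + 1) :: (io (n + 2) n)⁻¹ ::
      (io (n + 2) (n + 1))⁻¹ :: (fw (n + 2) (rW g)).map lt := by
    have a : n < n + 2 := by omega
    have b : n + 1 < n + 2 := by omega
    rw [Ctx.D0, hc, rW, ← hn]
    simp only [hd, fw, io, dif_pos a, dif_pos b, List.cons_append, List.nil_append,
      List.filterMap_cons, List.map_cons]
    rfl
  exact ⟨c, by rw [Ctx.r, hc, Raw_ev], e ▸ List.mem_cons_self, _, e ▸ (diaSt _ c).2.1⟩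

theorem wholeSt (hA : RwASt) (hN : NormSt) (hR : PrSt) (hL : LocSt) (hC : CoreSt) (hK : KeySt)
    (hS : StabSt) : WholeSt := by
  intro n g J hn h10 hJ φ hφ
  obtain ⟨c, hr, ha, hab⟩ := key_base hA hn
  have fin : ∀ (ψ : MulAut (FN (n + 2))) q, ψ (ev (n + 2) (rW (g + 1))) = c.r →
      Pr c (ψ (io (n + 2) n)) q → (∃ j ∈ J, Pm (ψ (io (n + 2) n)) (j (io (n + 2) n))) → ψ ∈ J := by
    rintro ψ q h1 h2 ⟨j, hj, e | e⟩
    · have := J.mul_mem hj (hS n g J hn h10 hJ _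
        (key_fix (j := j) (by rw [h1, hr, hJ.1 j hj])) (key_fix e))
      rwa [mul_inv_cancel_left] at this
    · exact absurd (e ▸ h2) ((hR _ c).2.1 _ _ q ((hR _ c).2.2.2 j _ _ (hr ▸ hJ.1 j hj) hab))
  have step : ∀ D, IsD c D → ∀ x ∈ D, (∃ j ∈ J, Pm x (j (io (n + 2) n))) →
      ∀ y ∈ D, ∃ j ∈ J, Pm y (j (io (n + 2) n)) := by
    rintro D hD x hx ⟨j, hj, e⟩ y hy
    obtain ⟨V, θ, hV, hθ, ⟨l, rfl⟩, ⟨l', rfl⟩, -⟩ := hL n c D x y y h10 hD hx hy hy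
    obtain ⟨c0, rfl, up, -⟩ := hC n c V θ hV hθ
    have pr : ∀ l, ∃ p q, Pr c0 p q ∧ Pm (θ (inc n (lt l))) (θ (inc n p)) := fun l => by
      obtain ⟨q, h | h⟩ := (hN n c0).2.2 c0.D0 (lt l) (diaSt _ c0).2.1
        (List.mem_map_of_mem (hV.2 l))
      · exact ⟨_, q, h, Or.inl rfl⟩
      · exact ⟨_, q, h, Or.inr (by rw [map_inv, map_inv, inv_inv])⟩
    obtain ⟨p, q, h, e1⟩ := pr l
    obtain ⟨p', q', h', e2⟩ := pr l'
    obtain ⟨ψ, s1, s2, s3⟩ := (hN _ c).2.1 (g + 1) _ _ (by omega) (up p q h)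
    change ψ (io (n + 2) n) = _ at s2
    obtain ⟨j', hj', e3, -⟩ := hK n g J hn hJ c0 θ p q p' q' (hθ.trans hr) h h'
      ⟨ψ, fin ψ _ s1 (s2 ▸ up p q h) ⟨j, hj, s2 ▸ key_pm e1 e⟩, s2, s3⟩
    exact ⟨j', hj', e3 ▸ e2⟩
  have all := (connA _ c).2.2 ∅ (fun D => ∀ x ∈ D, ∃ j ∈ J, Pm x (j (io (n + 2) n)))
    (step _ (diaSt _ c).2.1 _ ha ⟨1, J.one_mem, Or.inl rfl⟩) (fun D D' h _ _ h' => by
      obtain ⟨⟨z, h1, h2⟩, -⟩ := (mvA _ c).2.2.2.1 D D' h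
      exact step D h.1 z h1 (h' z h2))
  have hφ' : φ c.r = c.r := hr ▸ hφ
  exact fin φ _ (hφ.trans hr.symm) ((hR _ c).2.2.2 φ _ _ hφ' hab)
    (all _ ((diaSt _ c).2.2.1 φ _ hφ' (diaSt _ c).2.1) (fun _ h => h.elim) _
      (List.mem_map_of_mem ha))

end Pool.Agent.MG
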