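import Pool.Agent.Lib.MP_c86c76_al.G.Stab
import Pool.Agent.Lib.MP_c86c76_al.G.Key

/-!
The stabiliser of the first arc is generated by elements that fix it.
-/

set_option autoImplicit false

namespace Pool.Agent.MG

open Pool.Agent.MB Pool.Agent.MN
open FreeGroup hiding map_mul map_inv map_one

/-- The hypothesis with the front copy cut down to the stabiliser of the first arc. -/
def HypA (n g : ℕ) (J : Subgroup (MulAut (FN (n + 2)))) : Prop :=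
  (∀ j ∈ J, j (ev (n + 2) (rW (g + 1))) = ev (n + 2) (rW (g + 1))) ∧
  (∀ φ : MulAut (FN (n + 2)), φ (ev (n + 2) (rW (g + 1))) = ev (n + 2) (rW (g + 1)) →
    φ (io (n + 2) n) = io (n + 2) n → φ (io (n + 2) (n + 1)) = io (n + 2) (n + 1) → φ ∈ J) ∧
  (∀ ψ : MulAut (FN n), ψ (ev n (rW g)) = ev n (rW g) → ψ (io n (n - 2)) = io n (n - 2) →
    frA n ψ ∈ J) ∧
  ∃ T ∈ J, T (io (n + 2) n) = io (n + 2) n ∧
    T (io (n + 2) (n + 1)) = io (n + 2) (n + 1) * io (n + 2) n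

/-- Pairs with the same first member. -/
def KeyASt : Prop := ∀ (n g : ℕ) (J : Subgroup (MulAut (FN (n + 2)))), n = 2 * g → HypA n g J →
  ∀ (c0 : Ctx (Fin n)) (θ : MulAut (FN (n + 2))) (p q q' : FN n),
  θ (inc n c0.r * ev (n + 2) (hd n)) = ev (n + 2) (rW (g + 1)) → Pr c0 p q → Pr c0 p q' →
  Jp n J (θ (inc n p)) (θ (inc n q)) → Jp n J (θ (inc n p)) (θ (inc n q'))

theorem keyA (hB : RwBSt) (hN : NormSt) : KeyASt := by
  intro n g J hn ⟨h1, h2, h3, _⟩ c0 θ p q q' hθ hp hp' ⟨j, hj, ja, jb⟩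
  obtain ⟨σ, s1, s2, s3⟩ := (hN n c0).2.1 g p q hn hp
  obtain ⟨τ, t1, t2, t3⟩ := (hN n c0).2.1 g p q' hn hp'
  obtain ⟨u1, u2, u3⟩ := key_T hB hn (key_pos hp) θ σ
  obtain ⟨-, v2, v3⟩ := key_T hB hn (key_pos hp) θ τ
  have m1 := J.mul_mem hj (h2 _ (key_fix (j := j) (by rw [u1, s1, hθ, h1 j hj]))
    (key_fix (by rw [u2, s2, ja])) (key_fix (by rw [u3, s3, jb])))
  have m2 := J.mul_mem m1 (h3 (σ⁻¹ * τ) (key_fix (t1.trans s1.symm)) (key_fix (t2.trans s2.symm)))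
  refine ⟨θ * exA n τ * ka n, ?_, by rw [v2, t2], by rw [v3, t3]⟩
  convert m2 using 1
  rw [frA, map_mul, map_inv]
  group

section

variable {n g : ℕ} {J : Subgroup (MulAut (FN (n + 2)))} {c : Ctx (Fin (n + 2))} {α : Fin (n + 2) → ℤ}

theorem StabA_dia (hR : PrSt) (hP : PartSt) (hL : LocSt) (hC : CoreSt) (hK : KeyASt)
    (hn : n = 2 * g)
    (h10 : 10 ≤ n) (hJ : HypA n g J) (hr : c.r = ev (n + 2) (rW (g + 1)))
    (hab : Pr c (io (n + 2) n) (io (n + 2) (n + 1))) (hα : Du c.r (io (n + 2) n) α)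
    {D : List (FN (n + 2))} {y z : FN (n + 2)} (hD : IsD c D) (ha : io (n + 2) n ∈ D) (hy : y ∈ D)
    (hz : z ∈ D) (hy' : ch α y ≠ 0) (hz' : ch α z ≠ 0) (h : StabQ n J c y) : StabQ n J c z := by
  obtain ⟨V, θ, h1, h2, ⟨l0, e0⟩, ⟨l1, rfl⟩, l2, rfl⟩ := hL n c D _ y z h10 hD ha hy hz
  obtain ⟨c0, rfl, h4, h5⟩ := hC n c V θ h1 h2
  have key : ∀ l, ch α (θ (inc n (lt l))) ≠ 0 → ∃ p, Pr c0 (lt l0) p ∧
      Pr c (io (n + 2) n) (θ (inc n p)) ∧ (Pm (θ (inc n (lt l))) (θ (inc n p)) ∨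
        Pm (θ (inc n (lt l))) (io (n + 2) n * θ (inc n p))) := fun l hl => by
    obtain ⟨p, a1, a2, -⟩ := hP n c0 c0.D0 (lt l0) (lt l) _ (diaSt _ c0).2.1
      (List.mem_map_of_mem (h1.2 _)) (List.mem_map_of_mem (h1.2 _)) (h5 _ α (e0 ▸ hα))
      (by rw [ch_pb]; exact hl) fun q hq => (hR _ c).2.1 _ _ (θ (inc n q)) hab (by
        have := h4 _ _ hq
        rwa [map_inv, map_inv, ← e0] at this)
    refine ⟨p, a1, e0 ▸ h4 _ _ a1, a2.imp (Stab_map (θ.toMonoidHom.comp (inc n))) fun a3 => ?_⟩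
    have := Stab_map (θ.toMonoidHom.comp (inc n)) a3
    rw [map_mul] at this
    rw [e0]
    exact this
  obtain ⟨p, a1, a2, a3⟩ := key l1 hy'
  obtain ⟨q, b1, b2, b3⟩ := key l2 hz'
  refine Stab_of hR b2 b3 ?_
  have := h _ a2 a3
  rw [e0] at this ⊢
  exact hK n g J hn hJ c0 θ _ _ _ (h2.trans hr) a1 b1 this

theorem StabA_tw (hR : PrSt) (hJ : HypA n g J) (hr : c.r = ev (n + 2) (rW (g + 1)))
    (hab : Pr c (io (n + 2) n) (io (n + 2) (n + 1))) {p y : FN (n + 2)}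
    (h : Jp n J (io (n + 2) n) p)
    (h' : ∃ k : ℤ, Pm y (p * io (n + 2) n ^ k) ∨ Pm y (io (n + 2) n * (p * io (n + 2) n ^ k))) :
    StabQ n J c y := by
  obtain ⟨j, hj, j1, j2⟩ := h
  obtain ⟨k, hk⟩ := h'
  obtain ⟨T, hT, t1, t2⟩ := hJ.2.2.2
  obtain ⟨t3, t4⟩ := Stab_pow T t1 t2 k
  have m := J.mul_mem hj (J.zpow_mem hT k)
  have e1 : (j * T ^ k) (io (n + 2) n) = io (n + 2) n := by rw [MulAut.mul_apply, t3, j1]
  have e2 : (j * T ^ k) (io (n + 2) (n + 1)) = p * io (n + 2) n ^ k := by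
    rw [MulAut.mul_apply, t4, map_mul, map_zpow, j1, j2]
  have := (hR _ c).2.2.2 _ _ _ (hr ▸ hJ.1 _ m) hab
  rw [e1, e2] at this
  exact Stab_of hR this hk ⟨_, m, e1, e2⟩

end

theorem stabA (hA : RwASt) (hB : RwBSt) (hR : PrSt) (hP : PartSt) (hL : LocSt) (hC : CoreSt)
    (hK : KeyASt) (n g : ℕ) (J : Subgroup (MulAut (FN (n + 2)))) (hn : n = 2 * g) (h10 : 10 ≤ n)
    (hJ : HypA n g J) (φ : MulAut (FN (n + 2)))
    (f1 : φ (ev (n + 2) (rW (g + 1))) = ev (n + 2) (rW (g + 1)))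
    (f2 : φ (io (n + 2) n) = io (n + 2) n) : φ ∈ J := by
  obtain ⟨-, -, c, hc⟩ := hA (n + 2) (g + 1) (by omega)
  have hr : c.r = ev (n + 2) (rW (g + 1)) := by rw [Ctx.r, hc, Raw_ev]
  obtain ⟨-, -, -, α, hα, hb⟩ := hB n g hn
  have hU := (hB (n + 2) (g + 1) (by omega)).1
  rw [← hr] at hα hU f1
  obtain ⟨-, d0, d1, -, d2⟩ := diaSt _ c
  obtain ⟨E, hE⟩ := Stab_base hn hc
  have hab : Pr c (io (n + 2) n) (io (n + 2) (n + 1)) := ⟨E, hE ▸ d0⟩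
  have hB' := @StabA_dia n g J c α hR hP hL hC hK hn h10 hJ hr hab hα
  have hno : ∀ q, ¬ Pr c (io (n + 2) n)⁻¹ q := fun q => (hR _ c).2.1 _ _ q hab
  have ea : lt ((⟨n, by omega⟩ : Fin (n + 2)), true) = io (n + 2) n := by
    rw [io, dif_pos (by omega : n < n + 2)]
    rfl
  have main := (connA _ c).2.2 {(⟨n, by omega⟩, true)}
    (fun D => ∃ y ∈ D, ch α y ≠ 0 ∧ StabQ n J c y)
    ⟨_, by simp [hE], hb, Stab_of hR hab (Or.inl (Or.inl rfl)) ⟨1, J.one_mem, rfl, rfl⟩⟩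
    (fun D D1 hm m1 m2 ⟨y1, y2, y3, y4⟩ => by
      have ha : io (n + 2) n ∈ D1 := ea ▸ m2 _ rfl
      have hD := hm.2.1
      obtain ⟨y, z1, z2⟩ := Stab_gen hm.1 hb
      obtain ⟨-, u, v, s1, s2⟩ := (mvA _ c).2.2.2.1 _ _ ((mvA _ c).1 _ _ hm)
      refine ⟨y, z1, z2, (s2 y z1).elim (fun h => hB' hD ha y2 h y3 z2 y4) fun h => Stab_pm h ?_⟩
      have z3 := Stab_ch h z2
      obtain ⟨u1, v1, w1, w2, -, w3, w4⟩ := (d2 D1 hD).2.2.2.2 u v s1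
      by_cases hu : ch α u = 0
      · have hv : ch α v ≠ 0 := by
          rw [ch_mul] at z3
          omega
        have q := hB' hD ha y2 v1 y3 hv y4
        by_cases e : Pm u (io (n + 2) n)
        · obtain ⟨p, p1, p2, p3⟩ := hP _ c D1 _ v α hD ha v1 hα hv hno
          exact StabA_tw hR hJ hr hab (q p p1 p2) ((p3 u e).2 s1)
        · exact hB' w3 ((w4 _).2 (Or.inl ⟨ha, fun e' => e (Or.inl e'.symm),
            fun e' => e (Stab_symm (Or.inr e'))⟩)) ((w4 _).2 (Or.inl ⟨v1, w1, w2⟩))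
            ((w4 _).2 (Or.inr (Or.inl rfl))) hv z3 q
      · have q := hB' hD ha y2 u1 y3 hu y4
        by_cases e : Pm v (io (n + 2) n)
        · obtain ⟨p, p1, p2, p3⟩ := hP _ c D1 _ u α hD ha u1 hα hu hno
          exact StabA_tw hR hJ hr hab (q p p1 p2) ((p3 v e).1 s1)
        · obtain ⟨⟨D2, w5, w6⟩, -⟩ := adjRA _ c D1 u v hD s1
          exact hB' w5 ((w6 _).2 (Or.inl ⟨ha, fun e' => e (Or.inl e'.symm),
            fun e' => e (Stab_symm (Or.inr e'))⟩))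
            ((w6 _).2 (Or.inl ⟨u1, w1.symm, fun e' => w2 (by rw [e', inv_inv])⟩))
            ((w6 _).2 (Or.inr (Or.inl rfl))) hu z3 q)
  have hD := d1 φ _ f1 d0
  have ha : io (n + 2) n ∈ c.D0.map φ := List.mem_map.2 ⟨_, by simp [hE], f2⟩
  obtain ⟨y, y2, y3, y4⟩ := main _ hD fun l hl => by
    rw [Set.mem_singleton_iff.1 hl, ea]
    exact ha
  have q := hB' hD ha y2 (List.mem_map_of_mem (a := io (n + 2) (n + 1)) (by simp [hE])) y3
    (by rwa [Stab_fix (null_full c.full) hU hα φ f1 f2]) y4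
  have p := (hR _ c).2.2.2 φ _ _ f1 hab
  rw [f2] at p
  obtain ⟨j, hj, j1, j2⟩ := q _ p (Or.inl (Or.inl rfl))
  have e : ∀ x, j x = φ x → (j⁻¹ * φ) x = x := fun x h => by
    rw [MulAut.mul_apply, ← h, MulAut.inv_apply_self]
  have := hJ.2.1 (j⁻¹ * φ) (e _ (by rw [hJ.1 j hj, ← hr, f1])) (e _ (j1.trans f2.symm)) (e _ j2)
  simpa using J.mul_mem hj this

end Pool.Agent.MG
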