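import Pool.Agent.Lib.MP_c86c76_al.G.Low
import Pool.Agent.Lib.MP_c86c76_al.G.Main
import Pool.Agent.Lib.MP_c86c76_al.G.RwA
import Pool.Agent.Lib.MP_c86c76_al.G.RwB
import Pool.Agent.Lib.MP_c86c76_al.G.Norm
import Pool.Agent.Lib.MP_c86c76_al.G.Pair
import Pool.Agent.Lib.MP_c86c76_al.G.Pr
import Pool.Agent.Lib.MP_c86c76_al.G.Loc
import Pool.Agent.Lib.MP_c86c76_al.G.Core
import Pool.Agent.Lib.MP_c86c76_al.G.StabA

/-!
The stabiliser of the boundary word is generated by the Lickorish twists in every genus, and the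
stabiliser of the first arc by the twists that fix it.
-/

set_option autoImplicit false

namespace Pool.Agent.MG

open Pool.Agent.MB

theorem genAll (g : ℕ) : GenP (2 * g) g :=
  have hN := normSt rwBSt
  have hK := keySt rwBSt hN
  gen_of rwASt (wholeSt rwASt hN prSt locSt coreSt hK
    (stabSt rwASt rwBSt prSt (partSt (pairSt hN) prSt) locSt coreSt hK)) lickSt
    (fun g h => (low g h).1) g

theorem genA (g : ℕ) : GenA (2 * g) g := by
  induction g with
  | zero => exact (low 0 (by omega)).2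
  | succ g ih =>
    by_cases h5 : g + 1 ≤ 5
    · exact (low _ h5).2
    have key : ∀ (f : MulAut (FN (2 * g)) →* MulAut (FN (2 * g + 2))) (S : Set _),
        (∀ φ ∈ S, f φ ∈ LickA (2 * g + 2)) → ∀ ψ ∈ Subgroup.closure S,
          f ψ ∈ Subgroup.closure (LickA (2 * g + 2)) := fun f S hf ψ h => by
      have := Subgroup.mem_map_of_mem f h
      rw [MonoidHom.map_closure] at this
      exact Subgroup.closure_mono (by rintro _ ⟨φ, h, rfl⟩; exact hf φ h) this
    obtain ⟨f0, d0, -⟩ := rwASt (2 * g) g rfl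
    obtain ⟨-, -, c, hc⟩ := rwASt (2 * g + 2) (g + 1) rfl
    have hr : c.r = ev (2 * g + 2) (rW (g + 1)) := by rw [Ctx.r, hc, Raw_ev]
    have hN := normSt rwBSt
    refine stabA rwASt rwBSt prSt (partSt (pairSt hN) prSt) locSt coreSt (keyA rwBSt hN) (2 * g) g
      (Subgroup.closure (LickA (2 * g + 2))) rfl (by omega) ⟨?_, ?_, ?_, ?_⟩
    · intro j hj
      induction hj using Subgroup.closure_induction with
      | mem x hx => exact (lickSt _).2.2 (g + 1) rfl x hx.1
      | one => rfl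
      | mul x y _ _ hx hy => rw [MulAut.mul_apply, hy, hx]
      | inv x _ hx => exact x.symm_apply_eq.2 hx.symm
    · intro φ h1 h2 h3
      obtain ⟨ψ, e, rfl⟩ := abSt dualA rawSt (2 * g) c (rW g) (Raw_full _ _ f0).2 hc d0 φ
        (by rw [hr, h1]) h2 h3
      exact key (exA _) _ (fun φ h => ⟨((lickSt _).1 φ h).1, exA_new φ (by omega)⟩) ψ
        (genAll g ψ e)
    · intro ψ h h'
      rw [← frH_apply]
      refine key (frH _) _ (fun φ h => ?_) ψ (ih ψ h h')
      rw [frH_apply]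
      refine ⟨((lickSt _).1 φ h.1).2, (ka _).symm_apply_eq.2 ?_⟩
      change exA _ φ (ka _ _) = _
      rw [show 2 * g + 2 - 2 = 2 * g - 2 + 2 by omega, ka_io (by omega), ← inc_io (by omega),
        exA_inc, h.2]
    · obtain ⟨T, hT⟩ := (((lickSt (2 * g + 2)).2.1 g).1 le_rfl).1
      exact ⟨T, Subgroup.subset_closure ⟨⟨g, Or.inl ⟨le_rfl, Or.inl hT⟩⟩, hT.2 _ (by omega)⟩,
        hT.2 _ (by omega), hT.1⟩

theorem io_ext {n : ℕ} {φ ψ : MulAut (FN n)} (h : ∀ x, φ (io n x) = ψ (io n x)) : φ = ψ :=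
  Raw_ext n fun i => by rw [← show io n i = FreeGroup.of i from dif_pos i.2, h]

theorem IsA.eq {n i : ℕ} {φ ψ : MulAut (FN n)} (h : IsA n i φ) (h' : IsA n i ψ) : φ = ψ :=
  io_ext fun x => by
    by_cases e : x = 2 * i + 1
    · rw [e, h.1, h'.1]
    · rw [h.2 x e, h'.2 x e]

theorem IsB.eq {n i : ℕ} {φ ψ : MulAut (FN n)} (h : IsB n i φ) (h' : IsB n i ψ) : φ = ψ :=
  io_ext fun x => by
    by_cases e : x = 2 * i
    · rw [e, h.1, h'.1]
    · rw [h.2 x e, h'.2 x e]

theorem IsC.eq {n i : ℕ} {φ ψ : MulAut (FN n)} (h : IsC n i φ) (h' : IsC n i ψ) : φ = ψ :=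
  io_ext fun x => by
    by_cases e : x = 2 * i
    · rw [e, h.2.1, h'.2.1]
    by_cases e1 : x = 2 * i + 1
    · rw [e1, h.2.2.1, h'.2.2.1]
    by_cases e3 : x = 2 * i + 3
    · rw [e3, h.1, h'.1]
    · rw [h.2.2.2 x e e1 e3, h'.2.2.2 x e e1 e3]

theorem lick_finite (n : ℕ) : (Lick n).Finite := by
  refine ((Set.finite_lt_nat n).biUnion (t := fun i =>
    {φ | IsA n i φ} ∪ {φ | IsB n i φ} ∪ {φ | IsC n i φ}) fun i _ => ?_).subset ?_
  · exact ((Set.Subsingleton.finite fun _ a _ b => IsA.eq a b).union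
      (Set.Subsingleton.finite fun _ a _ b => IsB.eq a b)).union
      (Set.Subsingleton.finite fun _ a _ b => IsC.eq a b)
  · rintro φ ⟨i, ⟨k, h⟩ | ⟨k, h⟩⟩
    · exact Set.mem_biUnion (show i < n by omega) (Or.inl h)
    · exact Set.mem_biUnion (show i < n by omega) (Or.inr h)

theorem stab_eq (g : ℕ) : MulAction.stabilizer (MulAut (FN (2 * g))) (ev (2 * g) (rW g)) =
    Subgroup.closure (Lick (2 * g)) :=
  le_antisymm (genAll g) ((Subgroup.closure_le _).2 ((lickSt _).2.2 g rfl))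

theorem stabA_eq (g : ℕ) : MulAction.stabilizer (MulAut (FN (2 * g))) (ev (2 * g) (rW g)) ⊓
    MulAction.stabilizer (MulAut (FN (2 * g))) (io (2 * g) (2 * g - 2)) =
    Subgroup.closure (LickA (2 * g)) :=
  le_antisymm (fun φ h => genA g φ h.1 h.2)
    ((Subgroup.closure_le _).2 fun φ h => ⟨(lickSt _).2.2 g rfl φ h.1, h.2⟩)

theorem stab_fg (g : ℕ) :
    Group.FG (MulAction.stabilizer (MulAut (FN (2 * g))) (ev (2 * g) (rW g))) :=
  (Group.fg_iff_subgroup_fg _).2 ((Subgroup.fg_iff _).2 ⟨_, (stab_eq g).symm, lick_finite _⟩)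

end Pool.Agent.MG
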