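import Pool.Agent.Lib.MP_c86c76_al.N.Om
import Pool.Agent.Lib.MP_c86c76_al.B.All
import Pool.Agent.Lib.MP_c86c76_al.B.Gens

/-!
Definitions and statements for the generation of the stabiliser of the boundary word by twists in
every genus.
-/

set_option autoImplicit false

namespace Pool.Agent.MG

open Pool.Agent.MB Pool.Agent.MN
open FreeGroup hiding map_mul map_inv map_one

/-- The free group of rank `n`. -/
abbrev FN (n : ℕ) : Type := FreeGroup (Fin n)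

/-- A diagram starts with the commutator of `p` and `q`. -/
def Pr {α : Type} (c : Ctx α) (p q : FreeGroup α) : Prop :=
  ∃ E, IsD c (p :: q :: p⁻¹ :: q⁻¹ :: E)

/-- `a` is the character dual to `u`. -/
def Du {α : Type} (r u : FreeGroup α) (a : α → ℤ) : Prop := ∀ b, om a b r = ch b u

/-- The form of `r` is unimodular. -/
def Uni {α : Type} (r : FreeGroup α) : Prop :=
  ∀ (a : α → ℤ) (d : ℤ), (∀ b, d ∣ om a b r) → ∀ x, d ∣ a x

/-- The rotation of the letters by two. -/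
def kp (n : ℕ) : Equiv.Perm (Fin (n + 2)) where
  toFun i := if h : (i : ℕ) < 2 then ⟨i + n, by omega⟩ else ⟨i - 2, by omega⟩
  invFun i := if h : (i : ℕ) < n then ⟨i + 2, by omega⟩ else ⟨i - n, by omega⟩
  left_inv i := by
    have := i.2
    refine Fin.ext ?_
    by_cases h : (i : ℕ) < 2
    · simp only [dif_pos h, dif_neg (by omega : ¬ (i : ℕ) + n < n)]
      omega
    · simp only [dif_neg h, dif_pos (by omega : (i : ℕ) - 2 < n)]
      omega
  right_inv i := by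
    have := i.2
    refine Fin.ext ?_
    by_cases h : (i : ℕ) < n
    · simp only [dif_pos h, dif_neg (by omega : ¬ (i : ℕ) + 2 < 2)]
      omega
    · simp only [dif_neg h, dif_pos (by omega : (i : ℕ) - n < 2)]
      omega

/-- The rotation as an automorphism. -/
def ka (n : ℕ) : MulAut (FN (n + 2)) := FreeGroup.freeGroupCongr (kp n)

/-- Extension of an automorphism of the last letters by the identity on the first two. -/
def frA (n : ℕ) (φ : MulAut (FN n)) : MulAut (FN (n + 2)) := (ka n)⁻¹ * exA n φ * ka n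

/-- The twist about `a_i`. -/
def IsA (n i : ℕ) (φ : MulAut (FN n)) : Prop :=
  φ (io n (2 * i + 1)) = io n (2 * i + 1) * io n (2 * i) ∧
    ∀ x, x ≠ 2 * i + 1 → φ (io n x) = io n x

/-- The twist about `b_i`. -/
def IsB (n i : ℕ) (φ : MulAut (FN n)) : Prop :=
  φ (io n (2 * i)) = io n (2 * i) * (io n (2 * i + 1))⁻¹ ∧ ∀ x, x ≠ 2 * i → φ (io n x) = io n x

/-- The curve that joins the handles `i` and `i + 1`. -/
def cc (n i : ℕ) : FN n :=
  io n (2 * i + 3) * (io n (2 * i + 2))⁻¹ * (io n (2 * i + 3))⁻¹ * io n (2 * i)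

/-- The twist about the curve that joins the handles `i` and `i + 1`. -/
def IsC (n i : ℕ) (φ : MulAut (FN n)) : Prop :=
  φ (io n (2 * i + 3)) = (cc n i)⁻¹ * io n (2 * i + 3) ∧
    φ (io n (2 * i)) = (cc n i)⁻¹ * io n (2 * i) * cc n i ∧
    φ (io n (2 * i + 1)) = io n (2 * i + 1) * cc n i ∧
    ∀ x, x ≠ 2 * i → x ≠ 2 * i + 1 → x ≠ 2 * i + 3 → φ (io n x) = io n x

/-- The Lickorish twists. -/
def Lick (n : ℕ) : Set (MulAut (FN n)) :=
  {φ | ∃ i, (2 * i + 2 ≤ n ∧ (IsA n i φ ∨ IsB n i φ)) ∨ (2 * i + 4 ≤ n ∧ IsC n i φ)}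

theorem ka_io {n i : ℕ} (h : i < n) : ka n (io (n + 2) (i + 2)) = io (n + 2) i := by
  rw [io, dif_pos (by omega : i + 2 < n + 2), io, dif_pos (by omega : i < n + 2)]
  exact (FreeGroup.map.of (f := kp n)).trans (congrArg of (by simp [kp]))

theorem ka_low {n i : ℕ} (h : i < 2) : ka n (io (n + 2) i) = io (n + 2) (i + n) := by
  rw [io, dif_pos (by omega : i < n + 2), io, dif_pos (by omega : i + n < n + 2)]
  exact (FreeGroup.map.of (f := kp n)).trans (congrArg of (dif_pos h))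

theorem inc_io {n i : ℕ} (h : i < n) : inc n (io n i) = io (n + 2) i := by
  rw [io, dif_pos h, io, dif_pos (by omega : i < n + 2)]
  exact FreeGroup.map.of

theorem exA_inc (n : ℕ) (φ : MulAut (FN n)) (y : FN n) : exA n φ (inc n y) = inc n (φ y) :=
  exE_inc n φ y

theorem exA_new {n i : ℕ} (φ : MulAut (FN n)) (h : n ≤ i) :
    exA n φ (io (n + 2) i) = io (n + 2) i := by
  unfold io
  split_ifs with h'
  · rw [exA_apply, exE, lift_apply_of, dif_neg (by simpa using h)]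
  · exact map_one _

theorem om_skew {β : Type} {w : FreeGroup β} (h : Null w) (a b : β → ℤ) :
    om a b w = -om b a w := by
  have := h.hom (fun w => om a b w + om b a w - ch a w * ch b w) fun u v => by
    simp only [om_mul, ch_mul]; ring
  rw [h a] at this
  omega

theorem Uni.zero {β : Type} {r : FreeGroup β} (h : Uni r) {a : β → ℤ}
    (ha : ∀ b, om a b r = 0) : a = 0 :=
  funext fun x => zero_dvd_iff.1 (h a 0 (fun b => (ha b).symm ▸ dvd_refl _) x)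

theorem Du.unique {β : Type} {r u : FreeGroup β} (h : Uni r) {a a' : β → ℤ} (h1 : Du r u a)
    (h2 : Du r u a') : a = a' :=
  sub_eq_zero.1 (h.zero fun b => by rw [om_sub_left, h1, h2, sub_self])

/-- The standard word gives a base diagram. -/
def RwASt : Prop := ∀ n g, n = 2 * g → fullR n (rW g) = true ∧
  Subgroup.closure (Set.range fun x : Fin n => ev n (del (rW g) ((x : ℕ), true))) = ⊤ ∧
  ∃ c : Ctx (Fin n), c.W = fw n (rW g)

/-- The form of the standard word and two renamings. -/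
def RwBSt : Prop := ∀ n g, n = 2 * g → Uni (ev n (rW g)) ∧
  (∃ ρ : MulAut (FN n), ρ (ev n (patC 0 g)) = ev n (rW g) ∧
    (0 < g → ρ (io n 0) = io n (n - 2) ∧ ρ (io n 1) = io n (n - 1))) ∧
  ka n (ev (n + 2) (rW (g + 1))) = inc n (ev n (rW g)) * ev (n + 2) (hd n) ∧
  ∃ a, Du (ev (n + 2) (rW (g + 1))) (io (n + 2) n) a ∧ ch a (io (n + 2) (n + 1)) ≠ 0

/-- Standard position. -/
def NormSt : Prop := ∀ (n : ℕ) (c : Ctx (Fin n)),
  ((∃ g, n = 2 * g ∧ ∃ σ : MulAut (FN n), σ (ev n (rW g)) = c.r) ∧ Uni c.r) ∧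
  (∀ g p q, n = 2 * g → Pr c p q → ∃ σ : MulAut (FN n), σ (ev n (rW g)) = c.r ∧
    σ (io n (n - 2)) = p ∧ σ (io n (n - 1)) = q) ∧
  ∀ D x, IsD c D → x ∈ D → ∃ q, Pr c x q ∨ Pr c x⁻¹ q

/-- Crossing pairs. -/
def PairSt : Prop := ∀ (n : ℕ) (c : Ctx (Fin n)) (D : List (FN n)) (x y : FN n) (a : Fin n → ℤ),
  IsD c D → x ∈ D → y ∈ D → Du c.r x a → ch a y ≠ 0 →
  ∃ u v, Pr c u v ∧ ((Pm x u ∧ Pm y v) ∨ (Pm y u ∧ Pm x v)) ∧
    ∀ s t, (Pm s x ∨ Pm s y) → (Pm t x ∨ Pm t y) → Adj D s t → Adj [u, v, u⁻¹, v⁻¹] s t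

/-- Order facts for commutator pairs. -/
def PrSt : Prop := ∀ (n : ℕ) (c : Ctx (Fin n)),
  (∀ p q, Pr c p q → Pr c q⁻¹ (q * p)) ∧
  (∀ p q q', Pr c p q → ¬ Pr c p⁻¹ q') ∧
  (∀ a p q y, Pr c a p → Pr c a q → (Pm y p ∨ Pm y (a * p)) → (Pm y q ∨ Pm y (a * q)) → p = q) ∧
  ∀ (φ : MulAut (FN n)) p q, φ c.r = c.r → Pr c p q → Pr c (φ p) (φ q)

/-- The partner of a crossing arc. -/
def PartSt : Prop := ∀ (n : ℕ) (c : Ctx (Fin n)) (D : List (FN n)) (x y : FN n) (a : Fin n → ℤ),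
  IsD c D → x ∈ D → y ∈ D → Du c.r x a → ch a y ≠ 0 → (∀ q, ¬ Pr c x⁻¹ q) →
  ∃ p, Pr c x p ∧ (Pm y p ∨ Pm y (x * p)) ∧
    ∀ s, Pm s x → (Adj D y s → ∃ k : ℤ, Pm (y * s) (p * x ^ k) ∨ Pm (y * s) (x * (p * x ^ k))) ∧
      (Adj D s y → ∃ k : ℤ, Pm (s * y) (p * x ^ k) ∨ Pm (s * y) (x * (p * x ^ k)))

/-- Three arcs miss a handle. -/
def LocSt : Prop := ∀ (n : ℕ) (c : Ctx (Fin (n + 2))) (D : List (FN (n + 2))) (x y z : FN (n + 2)),
  10 ≤ n → IsD c D → x ∈ D → y ∈ D → z ∈ D →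
  ∃ (V : List (Fin n × Bool)) (θ : MulAut (FN (n + 2))), Full V ∧
    θ (inc n (mk V) * ev (n + 2) (hd n)) = c.r ∧ (∃ l, x = θ (inc n (lt l))) ∧
    (∃ l, y = θ (inc n (lt l))) ∧ ∃ l, z = θ (inc n (lt l))

/-- The complement of a handle. -/
def CoreSt : Prop := ∀ (n : ℕ) (c : Ctx (Fin (n + 2))) (V : List (Fin n × Bool))
  (θ : MulAut (FN (n + 2))), Full V → θ (inc n (mk V) * ev (n + 2) (hd n)) = c.r →
  ∃ c0 : Ctx (Fin n), c0.W = V ∧ (∀ p q, Pr c0 p q → Pr c (θ (inc n p)) (θ (inc n q))) ∧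
    ∀ u a, Du c.r (θ (inc n u)) a → Du c0.r u (pb (θ.toMonoidHom.comp (inc n)) a)

/-- The subgroup contains the two copies of the group of lower genus and a twist. -/
def Hyp (n g : ℕ) (J : Subgroup (MulAut (FN (n + 2)))) : Prop :=
  (∀ j ∈ J, j (ev (n + 2) (rW (g + 1))) = ev (n + 2) (rW (g + 1))) ∧
  (∀ φ : MulAut (FN (n + 2)), φ (ev (n + 2) (rW (g + 1))) = ev (n + 2) (rW (g + 1)) →
    φ (io (n + 2) n) = io (n + 2) n → φ (io (n + 2) (n + 1)) = io (n + 2) (n + 1) → φ ∈ J) ∧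
  (∀ ψ : MulAut (FN n), ψ (ev n (rW g)) = ev n (rW g) → frA n ψ ∈ J) ∧
  ∃ T ∈ J, T (io (n + 2) n) = io (n + 2) n ∧
    T (io (n + 2) (n + 1)) = io (n + 2) (n + 1) * io (n + 2) n

/-- The pair `p, q` is the image of the first handle under `J`. -/
def Jp (n : ℕ) (J : Subgroup (MulAut (FN (n + 2)))) (p q : FN (n + 2)) : Prop :=
  ∃ j ∈ J, j (io (n + 2) n) = p ∧ j (io (n + 2) (n + 1)) = q

/-- Pairs in the complement of a handle. -/
def KeySt : Prop := ∀ (n g : ℕ) (J : Subgroup (MulAut (FN (n + 2)))), n = 2 * g → Hyp n g J →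
  ∀ (c0 : Ctx (Fin n)) (θ : MulAut (FN (n + 2))) (p q p' q' : FN n),
  θ (inc n c0.r * ev (n + 2) (hd n)) = ev (n + 2) (rW (g + 1)) → Pr c0 p q → Pr c0 p' q' →
  Jp n J (θ (inc n p)) (θ (inc n q)) → Jp n J (θ (inc n p')) (θ (inc n q'))

/-- The stabiliser of the first arc. -/
def StabSt : Prop := ∀ (n g : ℕ) (J : Subgroup (MulAut (FN (n + 2)))), n = 2 * g → 10 ≤ n →
  Hyp n g J → ∀ φ : MulAut (FN (n + 2)), φ (ev (n + 2) (rW (g + 1))) = ev (n + 2) (rW (g + 1)) →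
  φ (io (n + 2) n) = io (n + 2) n → φ ∈ J

/-- The whole group. -/
def WholeSt : Prop := ∀ (n g : ℕ) (J : Subgroup (MulAut (FN (n + 2)))), n = 2 * g → 10 ≤ n →
  Hyp n g J → ∀ φ : MulAut (FN (n + 2)), φ (ev (n + 2) (rW (g + 1))) = ev (n + 2) (rW (g + 1)) →
  φ ∈ J

/-- The twists exist, fix the boundary word and extend to twists. -/
def LickSt : Prop := ∀ n : ℕ,
  (∀ φ ∈ Lick n, exA n φ ∈ Lick (n + 2) ∧ frA n φ ∈ Lick (n + 2)) ∧
  (∀ i, (2 * i + 2 ≤ n → (∃ φ, IsA n i φ) ∧ ∃ φ, IsB n i φ) ∧ (2 * i + 4 ≤ n → ∃ φ, IsC n i φ)) ∧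
  ∀ g, n = 2 * g → ∀ φ ∈ Lick n, φ (ev n (rW g)) = ev n (rW g)

/-- Generation in genus `g`. -/
def GenP (n g : ℕ) : Prop := ∀ φ : MulAut (FN n), φ (ev n (rW g)) = ev n (rW g) →
  φ ∈ Subgroup.closure (Lick n)

/-- Small genus. -/
def BaseSt : Prop := ∀ g ≤ 5, GenP (2 * g) g

end Pool.Agent.MG
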