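import Pool.Agent.Lib.MP_c86c76_al.G.Defs

/-!
The twists exist, fix the boundary word and extend to twists in higher genus.
-/

set_option autoImplicit false

namespace Pool.Agent.MG

open Pool.Agent.MB Pool.Agent.MN
open FreeGroup hiding map_mul map_inv map_one

theorem Lick_big {n x : ℕ} (h : n ≤ x) : io n x = 1 := dif_neg (by omega)

theorem Lick_tr {n j : ℕ} (ι : FN n →* FN (n + 2)) (φ : MulAut (FN n)) (ψ : MulAut (FN (n + 2)))
    (hj : j ≤ 1) (h1 : ∀ y < n, ι (io n y) = io (n + 2) (y + 2 * j)) (h2 : ∀ y, ψ (ι y) = ι (φ y))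
    (h3 : ∀ x, x < 2 * j ∨ n + 2 * j ≤ x → ψ (io (n + 2) x) = io (n + 2) x) (h : φ ∈ Lick n) :
    ψ ∈ Lick (n + 2) := by
  obtain ⟨i, h⟩ := h
  have e : ∀ k, 2 * i + k < n → io (n + 2) (2 * (i + j) + k) = ι (io n (2 * i + k)) :=
    fun k hk => by rw [h1 _ hk]; congr 1; omega
  have e0 : 2 * i < n → io (n + 2) (2 * (i + j)) = ι (io n (2 * i)) := e 0
  have fx : ∀ x, (∀ y, x = y + 2 * j → φ (io n y) = io n y) → ψ (io (n + 2) x) = io (n + 2) x := by
    intro x hx
    by_cases hc : x < 2 * j ∨ n + 2 * j ≤ x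
    · exact h3 x hc
    · obtain ⟨y, rfl⟩ : ∃ y, x = y + 2 * j := ⟨x - 2 * j, by omega⟩
      rw [← h1 y (by omega), h2, hx y rfl]
  refine ⟨i + j, ?_⟩
  rcases h with ⟨hi, h | h⟩ | ⟨hi, h⟩
  · refine Or.inl ⟨by omega, Or.inl ⟨?_, fun x hx => fx x fun y hy => h.2 y (by omega)⟩⟩
    rw [e 1 (by omega), e0 (by omega), h2, h.1, map_mul]
  · refine Or.inl ⟨by omega, Or.inr ⟨?_, fun x hx => fx x fun y hy => h.2 y (by omega)⟩⟩
    rw [e 1 (by omega), e0 (by omega), h2, h.1, map_mul, map_inv]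
  · have hc : cc (n + 2) (i + j) = ι (cc n i) := by
      rw [cc, cc, e 3 (by omega), e 2 (by omega), e0 (by omega)]
      simp only [map_mul, map_inv]
    refine Or.inr ⟨by omega, ?_, ?_, ?_, fun x k1 k2 k3 =>
      fx x fun y hy => h.2.2.2 y (by omega) (by omega) (by omega)⟩
    · rw [hc, e 3 (by omega), h2, h.1, map_mul, map_inv]
    · rw [hc, e0 (by omega), h2, h.2.1, map_mul, map_mul, map_inv]
    · rw [hc, e 1 (by omega), h2, h.2.2.1, map_mul]

theorem Lick_mk {n : ℕ} (f g : ℕ → FN n) (hf : ∀ x, n ≤ x → f x = 1) (hg : ∀ x, n ≤ x → g x = 1)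
    (h1 : ∀ F : FN n →* FN n, (∀ x, F (io n x) = f x) → ∀ x, F (g x) = io n x)
    (h2 : ∀ F : FN n →* FN n, (∀ x, F (io n x) = g x) → ∀ x, F (f x) = io n x) :
    ∃ φ : MulAut (FN n), ∀ x, φ (io n x) = f x := by
  have key : ∀ f : ℕ → FN n, (∀ x, n ≤ x → f x = 1) →
      ∀ x, lift (fun y : Fin n => f y) (io n x) = f x := by
    intro f hf x
    by_cases hx : x < n
    · rw [io, dif_pos hx, lift_apply_of]
    · rw [Lick_big (by omega), map_one, hf x (by omega)]
  have e : ∀ y : Fin n, io n y = of y := fun y => dif_pos y.2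
  refine ⟨MonoidHom.toMulEquiv (lift fun y : Fin n => f y) (lift fun y : Fin n => g y) ?_ ?_,
    key f hf⟩
  · refine ext_hom _ _ fun y => ?_
    rw [MonoidHom.comp_apply, lift_apply_of, h2 _ (key g hg), e, MonoidHom.id_apply]
  · refine ext_hom _ _ fun y => ?_
    rw [MonoidHom.comp_apply, lift_apply_of, h1 _ (key f hf), e, MonoidHom.id_apply]

theorem Lick_one {n s : ℕ} (hs : s < n) (u : FN n)
    (hu : ∀ F : FN n →* FN n, (∀ x, x ≠ s → F (io n x) = io n x) → F u = u) :
    ∃ φ : MulAut (FN n), φ (io n s) = io n s * u ∧ ∀ x, x ≠ s → φ (io n x) = io n x := by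
  have k : ∀ v, ∀ x, n ≤ x → (if x = s then v else io n x) = 1 := fun v x hx => by
    rw [if_neg (by omega), Lick_big hx]
  obtain ⟨φ, h⟩ := Lick_mk (fun x => if x = s then io n s * u else io n x)
    (fun x => if x = s then io n s * u⁻¹ else io n x) (k _) (k _)
    (fun F hF x => by
      have := hu F fun x hx => by rw [hF, if_neg hx]
      split_ifs with hx
      · rw [map_mul, map_inv, this, hF, if_pos rfl, hx, mul_inv_cancel_right]
      · rw [hF, if_neg hx])
    fun F hF x => by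
      have := hu F fun x hx => by rw [hF, if_neg hx]
      split_ifs with hx
      · rw [map_mul, this, hF, if_pos rfl, hx, inv_mul_cancel_right]
      · rw [hF, if_neg hx]
  exact ⟨φ, by rw [h, if_pos rfl], fun x hx => by rw [h, if_neg hx]⟩

/-- The images of the letters under a power of the twist. -/
def Lick_f (n i : ℕ) (c : FN n) (x : ℕ) : FN n :=
  if x = 2 * i + 3 then c⁻¹ * io n x else if x = 2 * i then c⁻¹ * io n x * c else
    if x = 2 * i + 1 then io n x * c else io n x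

theorem Lick_inv {n i : ℕ} {c : FN n} (F : FN n →* FN n) (hF : ∀ x, F (io n x) = Lick_f n i c x)
    (hc : F c = c) (x : ℕ) : F (Lick_f n i c⁻¹ x) = io n x := by
  have h := hF x
  unfold Lick_f at h ⊢
  split_ifs at h ⊢ <;> simp only [map_mul, map_inv, h, hc] <;> group

theorem Lick_cc {n i : ℕ} {c : FN n} (F : FN n →* FN n) (hF : ∀ x, F (io n x) = Lick_f n i c x) :
    F (cc n i) = c⁻¹ * cc n i * c := by
  simp only [cc, map_mul, map_inv, hF, Lick_f]
  rw [if_pos trivial, if_neg (by omega), if_neg (by omega), if_neg (by omega), if_neg (by omega),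
    if_pos trivial]
  group

theorem Lick_C {n i : ℕ} (h : 2 * i + 4 ≤ n) : ∃ φ, IsC n i φ := by
  have k : ∀ c, ∀ x, n ≤ x → Lick_f n i c x = 1 := fun c x hx => by
    rw [Lick_f, if_neg (by omega), if_neg (by omega), if_neg (by omega), Lick_big hx]
  obtain ⟨φ, h⟩ := Lick_mk (Lick_f n i (cc n i)) (Lick_f n i (cc n i)⁻¹) (k _) (k _)
    (fun F hF => Lick_inv F hF (by rw [Lick_cc F hF]; group))
    fun F hF x => by
      have := Lick_inv F hF (by rw [map_inv, Lick_cc F hF]; group) x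
      rwa [inv_inv] at this
  refine ⟨φ, ?_, ?_, ?_, fun x k1 k2 k3 => ?_⟩ <;> rw [h, Lick_f]
  · rw [if_pos rfl]
  · rw [if_neg (by omega), if_pos rfl]
  · rw [if_neg (by omega), if_neg (by omega), if_pos rfl]
  · rw [if_neg k3, if_neg k1, if_neg k2]

theorem Lick_rW (n m : ℕ) : ev n (rW (m + 1)) =
    io n (2 * m) * io n (2 * m + 1) * (io n (2 * m))⁻¹ * (io n (2 * m + 1))⁻¹ * ev n (rW m) := by
  rw [rW, ev, Raw_append, ev]
  simp [gw, hd, mul_assoc]

theorem Lick_up {n : ℕ} (φ : MulAut (FN n)) {k m : ℕ} (hm : k ≤ m)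
    (h0 : φ (ev n (rW k)) = ev n (rW k))
    (h : ∀ x, 2 * k ≤ x → x < 2 * m → φ (io n x) = io n x) : φ (ev n (rW m)) = ev n (rW m) := by
  induction m, hm using Nat.le_induction with
  | base => exact h0
  | succ m hm ih =>
    simp only [Lick_rW, map_mul, map_inv]
    rw [ih fun x h1 h2 => h x h1 (by omega), h _ (by omega) (by omega), h _ (by omega) (by omega)]

theorem Lick_low {n : ℕ} (φ : MulAut (FN n)) {m : ℕ} (h : ∀ x, x < 2 * m → φ (io n x) = io n x) :
    φ (ev n (rW m)) = ev n (rW m) :=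
  Lick_up φ (Nat.zero_le m) (by rw [rW, ev, Raw_nil, map_one]) fun x _ => h x

theorem lickSt : LickSt := by
  refine fun n => ⟨fun φ h => ⟨?_, ?_⟩, fun i => ⟨fun h => ⟨?_, ?_⟩, Lick_C⟩, ?_⟩
  · exact Lick_tr (j := 0) (inc n) φ _ (by omega) (fun y hy => inc_io hy) (exA_inc n φ)
      (fun x hx => exA_new φ (by omega)) h
  · refine Lick_tr (j := 1) ((ka n).symm.toMonoidHom.comp (inc n)) φ _ le_rfl (fun y hy => ?_)
      (fun y => ?_) (fun x hx => ?_) h
    · exact (ka n).symm_apply_eq.2 ((inc_io hy).trans (ka_io hy).symm)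
    · exact congrArg (ka n).symm
        ((congrArg (exA n φ) ((ka n).apply_symm_apply _)).trans (exA_inc n φ y))
    · rcases hx with hx | hx
      · refine (ka n).symm_apply_eq.2 ?_
        show exA n φ (ka n _) = _
        rw [ka_low hx, exA_new φ (by omega)]
      · rw [Lick_big hx, map_one]
  · exact Lick_one (by omega) _ fun F hF => hF _ (by omega)
  · exact Lick_one (by omega) _ fun F hF => by rw [map_inv, hF _ (by omega)]
  · rintro g rfl φ ⟨i, ⟨hi, h | h⟩ | ⟨hi, h⟩⟩
    · refine Lick_up φ (show i + 1 ≤ g by omega) ?_ fun x h1 _ => h.2 x (by omega)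
      simp only [Lick_rW, map_mul, map_inv]
      rw [Lick_low φ fun x hx => h.2 x (by omega), h.1, h.2 _ (by omega)]
      group
    · refine Lick_up φ (show i + 1 ≤ g by omega) ?_ fun x h1 _ => h.2 x (by omega)
      simp only [Lick_rW, map_mul, map_inv]
      rw [Lick_low φ fun x hx => h.2 x (by omega), h.1, h.2 _ (by omega)]
      group
    · refine Lick_up φ (show i + 1 + 1 ≤ g by omega) ?_
        fun x h1 _ => h.2.2.2 x (by omega) (by omega) (by omega)
      simp only [Lick_rW, map_mul, map_inv]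
      rw [Lick_low φ fun x hx => h.2.2.2 x (by omega) (by omega) (by omega),
        show 2 * (i + 1) = 2 * i + 2 from rfl, show 2 * i + 2 + 1 = 2 * i + 3 from rfl, h.1, h.2.1,
        h.2.2.1, h.2.2.2 _ (by omega) (by omega) (by omega), cc]
      group

end Pool.Agent.MG
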