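import Pool.Agent.Lib.MP_c86c76_al.G.Lick
import Pool.Agent.Lib.MP_c86c76_al.B.Lv5

/-!
Generation by twists in genus at most five.
-/

set_option autoImplicit false

namespace Pool.Agent.MG

open Pool.Agent.MB

/-- The connecting curve as a raw word. -/
def ccR (i : ℕ) : RW := [(2 * i + 3, true), (2 * i + 2, false), (2 * i + 3, false), (2 * i, true)]

/-- The substitution sends the letter `x` to `f x`. -/
def agR (n : ℕ) (p : SA) (f : ℕ → RW) : Bool :=
  (List.range n).all fun x => eqF (sub p.1 [(x, true)]) (f x)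

/-- A test for the twists. -/
def lickB (n : ℕ) (p : SA) : Bool :=
  okS n p && (List.range n).any fun i => (Nat.ble (2 * i + 2) n &&
    (agR n p (fun x => if x = 2 * i + 1 then [(x, true), (2 * i, true)] else [(x, true)]) ||
      agR n p fun x => if x = 2 * i then [(x, true), (2 * i + 1, false)] else [(x, true)])) ||
    (Nat.ble (2 * i + 4) n && agR n p fun x => if x = 2 * i + 3 then iv (ccR i) ++ [(x, true)] else
      if x = 2 * i then iv (ccR i) ++ [(x, true)] ++ ccR i else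
      if x = 2 * i + 1 then [(x, true)] ++ ccR i else [(x, true)])

theorem agR_ok {n : ℕ} {p : SA} {f : ℕ → RW} (h : okS n p = true) (h' : agR n p f = true) :
    (∀ x < n, aut n p (io n x) = gw (io n) (f x)) ∧
      ∀ x, f x = [(x, true)] → aut n p (io n x) = io n x := by
  have k : ∀ x < n, aut n p (io n x) = gw (io n) (f x) := fun x hx => by
    rw [← Raw_pos (io n) x]
    exact (Raw_aut n p _ h).1.trans
      (Raw_eqF _ _ _ (List.all_eq_true.1 h' x (List.mem_range.2 hx)))
  refine ⟨k, fun x e => ?_⟩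
  by_cases hx : x < n
  · rw [k x hx, e, Raw_pos]
  · rw [Lick_big (not_lt.1 hx), map_one]

theorem lickB_ok {n : ℕ} {p : SA} (h : lickB n p = true) : aut n p ∈ Lick n := by
  simp only [lickB, Bool.and_eq_true, List.any_eq_true, Bool.or_eq_true, Nat.ble_eq] at h
  obtain ⟨h0, i, -, h⟩ := h
  have c : gw (io n) (ccR i) = cc n i := by
    simp only [ccR, cc, Raw_cons, Raw_nil, cond_true, cond_false, mul_one, mul_assoc]
  refine ⟨i, ?_⟩
  rcases h with ⟨k, h | h⟩ | ⟨k, h⟩ <;> obtain ⟨a, b⟩ := agR_ok h0 h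
  · refine Or.inl ⟨k, Or.inl ⟨?_, fun x hx => b x (if_neg hx)⟩⟩
    rw [a _ (by omega), if_pos rfl, Raw_cons, Raw_pos]
    rfl
  · refine Or.inl ⟨k, Or.inr ⟨?_, fun x hx => b x (if_neg hx)⟩⟩
    rw [a _ (by omega), if_pos rfl, Raw_cons, Raw_neg]
    rfl
  · refine Or.inr ⟨k, ?_, ?_, ?_, fun x h1 h2 h3 => b x (by rw [if_neg h3, if_neg h1, if_neg h2])⟩
    · rw [a _ (by omega), if_pos rfl, Raw_append, Raw_iv, c, Raw_pos]
    · rw [a _ (by omega), if_neg (by omega), if_pos rfl, Raw_append, Raw_append, Raw_iv, c, Raw_pos]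
    · rw [a _ (by omega), if_neg (by omega), if_neg (by omega), if_pos rfl, Raw_append, c, Raw_pos]

/-- The twists that fix the first arc. -/
def LickA (n : ℕ) : Set (MulAut (FN n)) := {φ | φ ∈ Lick n ∧ φ (io n (n - 2)) = io n (n - 2)}

/-- Generation of the stabiliser of the first arc. -/
def GenA (n g : ℕ) : Prop := ∀ φ : MulAut (FN n), φ (ev n (rW g)) = ev n (rW g) →
  φ (io n (n - 2)) = io n (n - 2) → φ ∈ Subgroup.closure (LickA n)

theorem low_of {n g : ℕ} {Tl : List SA} (h : Lv n (rW g) Tl (n - 2) fun _ => (1 : PUnit.{1}))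
    (h1 : ((List.range Tl.length).all fun i => lickB n (Tl.getD i ([], []))) = true)
    (h2 : ((List.range (Tl.length - 1)).all fun i =>
      eqF (sub (Tl.getD i ([], [])).1 [(n - 2, true)]) [(n - 2, true)]) = true) :
    GenP n g ∧ GenA n g := by
  have k : ∀ (m : ℕ) (S : Set (MulAut (FN n))) (φ : MulAut (FN n)),
      (∀ i < m, aut n (Tl.getD i ([], [])) ∈ S) →
      (∃ s, (φ, s) ∈ Gr n Tl (fun _ => (1 : PUnit.{1})) m) → φ ∈ Subgroup.closure S :=
    fun m S φ hS ⟨s, hs⟩ => by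
      have := Subgroup.mem_map_of_mem (MonoidHom.fst _ _) hs
      rw [Gr, MonoidHom.map_closure, Set.image_image] at this
      exact Subgroup.closure_mono (by rintro _ ⟨i, hi, rfl⟩; exact hS i hi) this
  have l : ∀ i < Tl.length, lickB n (Tl.getD i ([], [])) = true := fun i hi =>
    List.all_eq_true.1 h1 i (List.mem_range.2 hi)
  refine ⟨fun φ e => k _ _ φ (fun i hi => lickB_ok (l i hi)) (h.2.2.1 φ e), fun φ e e' =>
    k _ _ φ (fun i hi => ⟨lickB_ok (l i (by omega)), ?_⟩) (h.2.2.2 φ ⟨e, e'⟩)⟩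
  rw [← Raw_pos (io n) (n - 2)]
  exact (Raw_aut n _ _ (Bool.and_eq_true_iff.1 (l i (by omega))).1).1.trans
    (Raw_eqF _ _ _ (List.all_eq_true.1 h2 i (List.mem_range.2 hi)))

theorem low (g : ℕ) (h : g ≤ 5) : GenP (2 * g) g ∧ GenA (2 * g) g := by
  obtain rfl | rfl | rfl | rfl | rfl | rfl : g = 0 ∨ g = 1 ∨ g = 2 ∨ g = 3 ∨ g = 4 ∨ g = 5 := by
    omega
  · exact low_of (lv0 _ _) rfl rfl
  · exact low_of (lv1 _ fun _ _ => rfl) (by decide +kernel) (by decide +kernel)
  · exact low_of (lv2 _ fun _ _ => rfl) (by decide +kernel) (by decide +kernel)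
  · exact low_of (lv3 _ fun _ _ => rfl) (by decide +kernel) (by decide +kernel)
  · exact low_of (lv4 _ fun _ _ => rfl) (by decide +kernel) (by decide +kernel)
  · exact low_of (lv5 _ (fun _ _ => rfl) fun _ _ => rfl) (by decide +kernel) (by decide +kernel)

end Pool.Agent.MG
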