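import Pool.Agent.Lib.MP_c86c76_al.G.Defs

/-!
The stabiliser of the first arc.
-/

set_option autoImplicit false

namespace Pool.Agent.MG

open Pool.Agent.MB Pool.Agent.MN
open FreeGroup hiding map_mul map_inv map_one

theorem Stab_symm {G : Type} [Group G] {x y : G} (h : Pm x y) : Pm y x :=
  h.imp Eq.symm fun e => by rw [e, inv_inv]

theorem Stab_trans {G : Type} [Group G] {x y z : G} (h : Pm x y) (h' : Pm y z) : Pm x z := by
  rcases h with rfl | rfl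
  · exact h'
  · rcases h' with rfl | rfl
    · exact Or.inr rfl
    · exact Or.inl (inv_inv _)

theorem Stab_map {G H : Type} [Group G] [Group H] (f : G →* H) {x y : G} (h : Pm x y) :
    Pm (f x) (f y) := h.imp (congrArg f) fun e => by rw [e, map_inv]

theorem Stab_ch {β : Type} {a : β → ℤ} {x y : FreeGroup β} (h : Pm x y) (h' : ch a x ≠ 0) :
    ch a y ≠ 0 := by
  rcases h with rfl | rfl
  · exact h'
  · rw [ch_inv] at h'
    omega

theorem Stab_pow {G : Type} [Group G] (T : MulAut G) {a b : G} (h1 : T a = a) (h2 : T b = b * a)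
    (k : ℤ) : (T ^ k) a = a ∧ (T ^ k) b = b * a ^ k := by
  have h3 : T⁻¹ a = a := T.injective (by rw [MulAut.apply_inv_self, h1])
  have h4 : T⁻¹ b = b * a⁻¹ := T.injective (by
    rw [MulAut.apply_inv_self, map_mul, map_inv, h1, h2, mul_inv_cancel_right])
  induction k using Int.induction_on with
  | zero => simp
  | succ k ih =>
    rw [zpow_add_one, MulAut.mul_apply, MulAut.mul_apply, h1, h2, map_mul, ih.1, ih.2,
      zpow_add_one, mul_assoc]
    exact ⟨rfl, rfl⟩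
  | pred k ih =>
    rw [zpow_sub_one, MulAut.mul_apply, MulAut.mul_apply, h3, h4, map_mul, map_inv, ih.1, ih.2,
      zpow_sub_one, mul_assoc]
    exact ⟨rfl, rfl⟩

theorem Stab_gen {β : Type} {c : Ctx β} {D : List (FreeGroup β)} (h : IsD c D) {a : β → ℤ}
    {b : FreeGroup β} (hb : ch a b ≠ 0) : ∃ y ∈ D, ch a y ≠ 0 := by
  obtain ⟨θ, W, h1, rfl, -⟩ := h
  by_contra! e
  have : pb θ.toMonoidHom a = 0 := funext fun x => e _ (List.mem_map.2 ⟨(x, true), h1.2 _, rfl⟩)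
  refine hb ?_
  rw [← θ.apply_symm_apply b]
  exact (ch_pb θ.toMonoidHom a _).symm.trans (by rw [this, ch_zero])

theorem Stab_fix {β : Type} {r u : FreeGroup β} {a : β → ℤ} (hr : Null r) (hU : Uni r)
    (h : Du r u a) (φ : MulAut (FreeGroup β)) (h1 : φ r = r) (h2 : φ u = u) (w : FreeGroup β) :
    ch a (φ w) = ch a w := by
  have e : pb φ.toMonoidHom a = a := Du.unique hU (fun b => by
    have e1 : pb φ.toMonoidHom (pb φ.symm.toMonoidHom b) = b := funext fun x => by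
      rw [pb, ch_pb]
      exact (congrArg (ch b) (φ.symm_apply_apply _)).trans (ch_of b x)
    have e2 := om_pb hr φ.toMonoidHom a (pb φ.symm.toMonoidHom b)
    have e3 := ch_pb φ.toMonoidHom (pb φ.symm.toMonoidHom b) u
    rw [e1] at e2 e3
    rw [← e2, e3]
    exact (congrArg _ h1).trans ((h _).trans (congrArg _ h2.symm))) h
  exact (ch_pb φ.toMonoidHom a w).symm.trans (by rw [e])

theorem Stab_base {n g : ℕ} (hn : n = 2 * g) {c : Ctx (Fin (n + 2))}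
    (hc : c.W = fw (n + 2) (rW (g + 1))) :
    ∃ E, c.D0 = io (n + 2) n :: io (n + 2) (n + 1) :: (io (n + 2) n)⁻¹ ::
      (io (n + 2) (n + 1))⁻¹ :: E := by
  have h1 : n < n + 2 := by omega
  have h2 : n + 1 < n + 2 := by omega
  refine ⟨(fw (n + 2) (rW g)).map lt, ?_⟩
  rw [Ctx.D0, hc, rW, ← hn, io, io, dif_pos h1, dif_pos h2, ← Ess_lt_f, ← Ess_lt_f]
  simp only [hd, fw, List.cons_append, List.nil_append, List.filterMap_cons, dif_pos h1, dif_pos h2,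
    List.map_cons]
  rfl

/-- The partner of `y` is in the orbit of the first handle. -/
def StabQ (n : ℕ) (J : Subgroup (MulAut (FN (n + 2)))) (c : Ctx (Fin (n + 2))) (y : FN (n + 2)) :
    Prop :=
  ∀ p, Pr c (io (n + 2) n) p → (Pm y p ∨ Pm y (io (n + 2) n * p)) → Jp n J (io (n + 2) n) p

section

variable {n g : ℕ} {J : Subgroup (MulAut (FN (n + 2)))} {c : Ctx (Fin (n + 2))} {α : Fin (n + 2) → ℤ}

theorem Stab_of (hR : PrSt) {y p : FN (n + 2)} (h1 : Pr c (io (n + 2) n) p)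
    (h2 : Pm y p ∨ Pm y (io (n + 2) n * p)) (h3 : Jp n J (io (n + 2) n) p) : StabQ n J c y :=
  fun _ h4 h5 => (hR _ c).2.2.1 _ _ _ y h1 h4 h2 h5 ▸ h3

theorem Stab_pm {y z : FN (n + 2)} (h : Pm z y) (h' : StabQ n J c y) : StabQ n J c z :=
  fun p h1 h2 => h' p h1 (h2.imp (Stab_trans (Stab_symm h)) (Stab_trans (Stab_symm h)))

theorem Stab_dia (hR : PrSt) (hP : PartSt) (hL : LocSt) (hC : CoreSt) (hK : KeySt) (hn : n = 2 * g)
    (h10 : 10 ≤ n) (hJ : Hyp n g J) (hr : c.r = ev (n + 2) (rW (g + 1)))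
    (hab : Pr c (io (n + 2) n) (io (n + 2) (n + 1))) (hα : Du c.r (io (n + 2) n) α)
    {D : List (FN (n + 2))} {y z : FN (n + 2)} (hD : IsD c D) (ha : io (n + 2) n ∈ D) (hy : y ∈ D)
    (hz : z ∈ D) (hy' : ch α y ≠ 0) (hz' : ch α z ≠ 0) (h : StabQ n J c y) : StabQ n J c z := by
  obtain ⟨V, θ, h1, h2, ⟨l0, e0⟩, ⟨l1, rfl⟩, l2, rfl⟩ := hL n c D _ y z h10 hD ha hy hz
  obtain ⟨c0, rfl, h4, h5⟩ := hC n c V θ h1 h2
  have key : ∀ l, ch α (θ (inc n (lt l))) ≠ 0 → ∃ p, Pr c0 (lt l0) p ∧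
      Pr c (io (n + 2) n) (θ (inc n p)) ∧ (Pm (θ (inc n (lt l))) (θ (inc n p)) ∨
        Pm (θ (inc n (lt l))) (io (n + 2) n * θ (inc n p))) := fun l hl => by
    obtain ⟨p, a1, a2, -⟩ := hP n c0 c0.D0 (lt l0) (lt l) _ (diaSt _ c0).2.1
      (List.mem_map_of_mem (h1.2 _)) (List.mem_map_of_mem (h1.2 _)) (h5 _ α (e0 ▸ hα))
      (by rw [ch_pb]; exact hl) fun q hq => (hR _ c).2.1 _ _ (θ (inc n q)) hab (by
        have := h4 _ _ hq
        rwa [map_inv, map_inv, ← e0] at this)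
    refine ⟨p, a1, e0 ▸ h4 _ _ a1, a2.imp (Stab_map (θ.toMonoidHom.comp (inc n))) fun a3 => ?_⟩
    have := Stab_map (θ.toMonoidHom.comp (inc n)) a3
    rw [map_mul] at this
    rw [e0]
    exact this
  obtain ⟨p, a1, a2, a3⟩ := key l1 hy'
  obtain ⟨q, b1, b2, b3⟩ := key l2 hz'
  refine Stab_of hR b2 b3 ?_
  have := h _ a2 a3
  rw [e0] at this ⊢
  exact hK n g J hn hJ c0 θ _ _ _ _ (h2.trans hr) a1 b1 this

theorem Stab_tw (hR : PrSt) (hJ : Hyp n g J) (hr : c.r = ev (n + 2) (rW (g + 1)))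
    (hab : Pr c (io (n + 2) n) (io (n + 2) (n + 1))) {p y : FN (n + 2)}
    (h : Jp n J (io (n + 2) n) p)
    (h' : ∃ k : ℤ, Pm y (p * io (n + 2) n ^ k) ∨ Pm y (io (n + 2) n * (p * io (n + 2) n ^ k))) :
    StabQ n J c y := by
  obtain ⟨j, hj, j1, j2⟩ := h
  obtain ⟨k, hk⟩ := h'
  obtain ⟨T, hT, t1, t2⟩ := hJ.2.2.2
  obtain ⟨t3, t4⟩ := Stab_pow T t1 t2 k
  have m := J.mul_mem hj (J.zpow_mem hT k)
  have e1 : (j * T ^ k) (io (n + 2) n) = io (n + 2) n := by rw [MulAut.mul_apply, t3, j1]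
  have e2 : (j * T ^ k) (io (n + 2) (n + 1)) = p * io (n + 2) n ^ k := by
    rw [MulAut.mul_apply, t4, map_mul, map_zpow, j1, j2]
  have := (hR _ c).2.2.2 _ _ _ (hr ▸ hJ.1 _ m) hab
  rw [e1, e2] at this
  exact Stab_of hR this hk ⟨_, m, e1, e2⟩

end

theorem stabSt (hA : RwASt) (hB : RwBSt) (hR : PrSt) (hP : PartSt) (hL : LocSt) (hC : CoreSt)
    (hK : KeySt) : StabSt := by
  intro n g J hn h10 hJ φ f1 f2
  obtain ⟨-, -, c, hc⟩ := hA (n + 2) (g + 1) (by omega)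
  have hr : c.r = ev (n + 2) (rW (g + 1)) := by rw [Ctx.r, hc, Raw_ev]
  obtain ⟨-, -, -, α, hα, hb⟩ := hB n g hn
  have hU := (hB (n + 2) (g + 1) (by omega)).1
  rw [← hr] at hα hU f1
  obtain ⟨-, d0, d1, -, d2⟩ := diaSt _ c
  obtain ⟨E, hE⟩ := Stab_base hn hc
  have hab : Pr c (io (n + 2) n) (io (n + 2) (n + 1)) := ⟨E, hE ▸ d0⟩
  have hB' := @Stab_dia n g J c α hR hP hL hC hK hn h10 hJ hr hab hα
  have hno : ∀ q, ¬ Pr c (io (n + 2) n)⁻¹ q := fun q => (hR _ c).2.1 _ _ q hab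
  have ea : lt ((⟨n, by omega⟩ : Fin (n + 2)), true) = io (n + 2) n := by
    rw [io, dif_pos (by omega : n < n + 2)]
    rfl
  have main := (connA _ c).2.2 {(⟨n, by omega⟩, true)}
    (fun D => ∃ y ∈ D, ch α y ≠ 0 ∧ StabQ n J c y)
    ⟨_, by simp [hE], hb, Stab_of hR hab (Or.inl (Or.inl rfl)) ⟨1, J.one_mem, rfl, rfl⟩⟩
    (fun D D1 hm m1 m2 ⟨y1, y2, y3, y4⟩ => by
      have ha : io (n + 2) n ∈ D1 := ea ▸ m2 _ rfl
      have hD := hm.2.1
      obtain ⟨y, z1, z2⟩ := Stab_gen hm.1 hb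
      obtain ⟨-, u, v, s1, s2⟩ := (mvA _ c).2.2.2.1 _ _ ((mvA _ c).1 _ _ hm)
      refine ⟨y, z1, z2, (s2 y z1).elim (fun h => hB' hD ha y2 h y3 z2 y4) fun h => Stab_pm h ?_⟩
      have z3 := Stab_ch h z2
      obtain ⟨u1, v1, w1, w2, -, w3, w4⟩ := (d2 D1 hD).2.2.2.2 u v s1
      by_cases hu : ch α u = 0
      · have hv : ch α v ≠ 0 := by
          rw [ch_mul] at z3
          omega
        have q := hB' hD ha y2 v1 y3 hv y4
        by_cases e : Pm u (io (n + 2) n)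
        · obtain ⟨p, p1, p2, p3⟩ := hP _ c D1 _ v α hD ha v1 hα hv hno
          exact Stab_tw hR hJ hr hab (q p p1 p2) ((p3 u e).2 s1)
        · exact hB' w3 ((w4 _).2 (Or.inl ⟨ha, fun e' => e (Or.inl e'.symm),
            fun e' => e (Stab_symm (Or.inr e'))⟩)) ((w4 _).2 (Or.inl ⟨v1, w1, w2⟩))
            ((w4 _).2 (Or.inr (Or.inl rfl))) hv z3 q
      · have q := hB' hD ha y2 u1 y3 hu y4
        by_cases e : Pm v (io (n + 2) n)
        · obtain ⟨p, p1, p2, p3⟩ := hP _ c D1 _ u α hD ha u1 hα hu hno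
          exact Stab_tw hR hJ hr hab (q p p1 p2) ((p3 v e).1 s1)
        · obtain ⟨⟨D2, w5, w6⟩, -⟩ := adjRA _ c D1 u v hD s1
          exact hB' w5 ((w6 _).2 (Or.inl ⟨ha, fun e' => e (Or.inl e'.symm),
            fun e' => e (Stab_symm (Or.inr e'))⟩))
            ((w6 _).2 (Or.inl ⟨u1, w1.symm, fun e' => w2 (by rw [e', inv_inv])⟩))
            ((w6 _).2 (Or.inr (Or.inl rfl))) hu z3 q)
  have hD := d1 φ _ f1 d0
  have ha : io (n + 2) n ∈ c.D0.map φ := List.mem_map.2 ⟨_, by simp [hE], f2⟩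
  obtain ⟨y, y2, y3, y4⟩ := main _ hD fun l hl => by
    rw [Set.mem_singleton_iff.1 hl, ea]
    exact ha
  have q := hB' hD ha y2 (List.mem_map_of_mem (a := io (n + 2) (n + 1)) (by simp [hE])) y3
    (by rwa [Stab_fix (null_full c.full) hU hα φ f1 f2]) y4
  have p := (hR _ c).2.2.2 φ _ _ f1 hab
  rw [f2] at p
  obtain ⟨j, hj, j1, j2⟩ := q _ p (Or.inl (Or.inl rfl))
  have e : ∀ x, j x = φ x → (j⁻¹ * φ) x = x := fun x h => by
    rw [MulAut.mul_apply, ← h, MulAut.inv_apply_self]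
  have := hJ.2.1 (j⁻¹ * φ) (e _ (by rw [hJ.1 j hj, ← hr, f1])) (e _ (j1.trans f2.symm)) (e _ j2)
  simpa using J.mul_mem hj this

end Pool.Agent.MG
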